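import Mathlib

/-!
# ArtinCriterion: definitions of the statement
-/

set_option autoImplicit false

namespace Pool.H17.MV.ArtinCriterion

open Polynomial

/-- The element `a + b x` of the ring `R_{σ,p} = 𝔽_p[x]/(x^σ - 1)`. -/
noncomputable def elt (σ p : ℕ) (a b : ZMod p) : AdjoinRoot ((X : (ZMod p)[X]) ^ σ - 1) :=
  AdjoinRoot.mk _ (C a + C b * X)

/-- The period `Π_σ(a,b;p)`: the least `k ≥ 1` such that `(a+bx)^(k+l) = (a+bx)^l` in
`𝔽_p[x]/(x^σ - 1)` for some `l ≥ 0`. -/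
noncomputable def period (σ p : ℕ) (a b : ZMod p) : ℕ :=
  sInf {k : ℕ | 1 ≤ k ∧ ∃ l : ℕ, elt σ p a b ^ (k + l) = elt σ p a b ^ l}

/-- `π_σ(p)`: the maximum of the periods `Π_σ(a,b;p)` over `a, b ∈ 𝔽_p`. -/
noncomputable def maxPeriod (σ p : ℕ) : ℕ :=
  ⨆ ab : ZMod p × ZMod p, period σ p ab.1 ab.2

/-- The upper bound `ub_σ(p)`: with `p^k` the exact power of `p` dividing `σ` and `m = σ / p^k`,
it is `p^k (p - 1)` if `m = 1` and `p^k (p^(ord_m p) - 1)` if `m ≥ 2`. -/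
noncomputable def ub (σ p : ℕ) : ℕ :=
  p ^ padicValNat p σ *
    (if σ / p ^ padicValNat p σ = 1 then p - 1
      else p ^ orderOf (p : ZMod (σ / p ^ padicValNat p σ)) - 1)

end Pool.H17.MV.ArtinCriterion
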