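import Mathlib
import Pool.Agent.H17.MV.ArtinCriterionDefs

/-!
# ArtinCriterion: the proof
-/

set_option autoImplicit false

namespace Pool.H17.MV.ArtinCriterion

open Polynomial

lemma elt_pow_eq_iff {σ p : ℕ} (a b : ZMod p) (m n : ℕ) :
    elt σ p a b ^ m = elt σ p a b ^ n ↔
      ((X : (ZMod p)[X]) ^ σ - 1) ∣ (C a + C b * X) ^ m - (C a + C b * X) ^ n := by
  unfold elt
  rw [← map_pow, ← map_pow, AdjoinRoot.mk_eq_mk]

lemma period_le {σ p : ℕ} (a b : ZMod p) {k l : ℕ} (hk : 1 ≤ k)
    (h : elt σ p a b ^ (k + l) = elt σ p a b ^ l) : period σ p a b ≤ k :=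
  Nat.sInf_le ⟨hk, l, h⟩

lemma neg_one_zmod_two : (-1 : ZMod 2) = 1 := by decide

lemma zmod_two_cases : ∀ u : ZMod 2, u ≠ 0 → u ≠ 1 → False := by decide

section aux

variable {p q : ℕ} [hp : Fact p.Prime] [hq : Fact q.Prime]

/-- values at nontrivial roots of unity -/
lemma prod_erase_eq_one {K : Type*} [Field K] [DecidableEq K] [Algebra (ZMod p) K]
    (hdiv : (p - 1) ∣ (q - 1)) {ζ : K} (hζ : IsPrimitiveRoot ζ q) (u : ZMod p) (hu : u ≠ 1) :
    ∏ w ∈ (nthRootsFinset q (1 : K)).erase 1, (w - algebraMap (ZMod p) K u) = 1 := by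
  classical
  have hqpos : 0 < q := hq.out.pos
  have h1mem : (1 : K) ∈ nthRootsFinset q (1 : K) := by
    rw [mem_nthRootsFinset hqpos]; simp
  have hprod := X_pow_sub_one_eq_prod (R := K) hqpos hζ
  have heval := congrArg (eval (algebraMap (ZMod p) K u)) hprod
  rw [eval_prod] at heval
  simp only [eval_sub, eval_pow, eval_X, eval_one, eval_C] at heval
  rw [← Finset.mul_prod_erase _ _ h1mem] at heval
  have huq : (algebraMap (ZMod p) K u) ^ q = algebraMap (ZMod p) K u := by
    rw [← map_pow]
    congr 1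
    obtain ⟨c, hc⟩ := hdiv
    have hq1 : q = (p - 1) * c + 1 := by have := hq.out.one_lt; omega
    rw [hq1, pow_succ, pow_mul]
    by_cases hu0 : u = 0
    · subst hu0; simp
    · rw [ZMod.pow_card_sub_one_eq_one hu0]; simp
  rw [huq] at heval
  have hne : algebraMap (ZMod p) K u - 1 ≠ 0 := by
    intro h
    apply hu
    have : algebraMap (ZMod p) K u = algebraMap (ZMod p) K 1 := by
      rw [map_one]; exact sub_eq_zero.mp h
    exact (algebraMap (ZMod p) K).injective this
  have h2 : ∏ w ∈ (nthRootsFinset q (1 : K)).erase 1, (algebraMap (ZMod p) K u - w) = 1 := by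
    have : (algebraMap (ZMod p) K u - 1) *
        ∏ w ∈ (nthRootsFinset q (1 : K)).erase 1, (algebraMap (ZMod p) K u - w) =
        (algebraMap (ZMod p) K u - 1) * 1 := by rw [← heval, mul_one]
    exact mul_left_cancel₀ hne this
  have h3 : ∏ w ∈ (nthRootsFinset q (1 : K)).erase 1, (w - algebraMap (ZMod p) K u) =
      ∏ w ∈ (nthRootsFinset q (1 : K)).erase 1, ((-1) * (algebraMap (ZMod p) K u - w)) := by
    apply Finset.prod_congr rfl; intro w _; ring
  rw [h3, Finset.prod_mul_distrib, h2, Finset.prod_const, mul_one, Finset.card_erase_of_mem h1mem,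
    hζ.card_nthRootsFinset]
  rcases hq.out.eq_two_or_odd' with h2' | hodd
  · -- q = 2, so p - 1 ∣ 1, p = 2
    subst h2'
    have hp2 : p = 2 := by
      have h1 : p - 1 = 1 := Nat.dvd_one.mp hdiv
      have := hp.out.two_le
      omega
    subst hp2
    have : (2 : K) = 0 := by
      have h := map_natCast (algebraMap (ZMod 2) K) 2
      have h2 : ((2 : ℕ) : ZMod 2) = 0 := ZMod.natCast_self 2
      rw [h2, map_zero] at h
      exact_mod_cast h.symm
    have h4 : (-1 : K) = 1 := by
      have : (1 : K) + 1 = 0 := by rw [← this]; norm_num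
      exact neg_eq_of_add_eq_zero_left this
    rw [h4]; simp
  · exact (Nat.Odd.sub_odd hodd odd_one).neg_one_pow

/-- the key norm computation -/
lemma key_dvd (hord : orderOf (p : ZMod q) = q - 1) (hdiv : (p - 1) ∣ (q - 1))
    (u : ZMod p) (hu : u ≠ 1) :
    ((X : (ZMod p)[X]) ^ q - 1) ∣ ∏ j ∈ Finset.range (q - 1), (X ^ p ^ j - C u) - 1 := by
  classical
  have hqpos : 0 < q := hq.out.pos
  have hpq : p ≠ q := by
    rintro rfl
    have h0 : ((p : ℕ) : ZMod p) = 0 := by simp
    rw [h0] at hord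
    have h1 : (0 : ZMod p) ^ (p - 1) = 1 := by
      have := pow_orderOf_eq_one (0 : ZMod p)
      rwa [hord] at this
    have h2 := hp.out.two_le
    rw [zero_pow (by omega)] at h1
    exact zero_ne_one h1
  set K := AlgebraicClosure (ZMod p) with hK
  have hqK : (q : K) ≠ 0 := by
    intro h
    have h1 : ((q : ℕ) : ZMod p) = 0 := by
      apply (algebraMap (ZMod p) K).injective
      rw [map_natCast, map_zero]; exact h
    rw [ZMod.natCast_eq_zero_iff] at h1
    exact hpq ((Nat.prime_dvd_prime_iff_eq hp.out hq.out).mp h1)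
  have : NeZero (q : K) := ⟨hqK⟩
  obtain ⟨ζ, hζ⟩ := HasEnoughRootsOfUnity.exists_primitiveRoot K q
  rw [← map_dvd_map' (algebraMap (ZMod p) K)]
  have hm1 : Polynomial.map (algebraMap (ZMod p) K) ((X : (ZMod p)[X]) ^ q - 1) = X ^ q - 1 := by
    simp
  rw [hm1, X_pow_sub_one_eq_prod hqpos hζ]
  apply Finset.prod_dvd_of_coprime
  · intro a _ b _ hab
    exact isCoprime_X_sub_C_of_isUnit_sub (sub_ne_zero.mpr hab).isUnit
  · intro z hz
    rw [mem_nthRootsFinset hqpos] at hz
    rw [dvd_iff_isRoot, IsRoot.def]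
    simp only [Polynomial.map_sub, Polynomial.map_prod, Polynomial.map_pow, map_X, map_C,
      Polynomial.map_one, eval_sub, eval_prod, eval_pow, eval_X, eval_C, eval_one]
    rw [sub_eq_zero]
    by_cases hz1 : z = 1
    · subst hz1
      simp only [one_pow, Finset.prod_const, Finset.card_range]
      obtain ⟨c, hc⟩ := hdiv
      rw [hc, pow_mul]
      have h1 : (1 - algebraMap (ZMod p) K u) = algebraMap (ZMod p) K (1 - u) := by simp
      rw [h1, ← map_pow, ZMod.pow_card_sub_one_eq_one (sub_ne_zero.mpr (Ne.symm hu))]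
      simp
    · have hzord : orderOf z = q := orderOf_eq_prime hz hz1
      have hzprim : IsPrimitiveRoot z q := by rw [← hzord]; exact IsPrimitiveRoot.orderOf z
      have hinj : Set.InjOn (fun j : ℕ => z ^ p ^ j) (Finset.range (q - 1) : Set ℕ) := by
        intro i hi j hj hij
        simp only [Finset.coe_range, Set.mem_Iio] at hi hj
        have hz0 : z ≠ 0 := by
          rintro rfl
          rw [zero_pow hqpos.ne'] at hz
          exact zero_ne_one hz
        have h1 : p ^ i ≡ p ^ j [MOD q] := by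
          have h0 : (Units.mk0 z hz0) ^ p ^ i = (Units.mk0 z hz0) ^ p ^ j := by
            ext; simpa using hij
          have := pow_eq_pow_iff_modEq.mp h0
          rwa [← orderOf_units, Units.val_mk0, hzord] at this
        have h2 : (p : ZMod q) ^ i = (p : ZMod q) ^ j := by
          have := (ZMod.natCast_eq_natCast_iff _ _ _).mpr h1
          push_cast at this; exact this
        have hpu : (p : ZMod q) ≠ 0 := by
          intro h
          rw [ZMod.natCast_eq_zero_iff] at h
          exact hpq ((Nat.prime_dvd_prime_iff_eq hq.out hp.out).mp h).symm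
        have h0 : (Units.mk0 (p : ZMod q) hpu) ^ i = (Units.mk0 (p : ZMod q) hpu) ^ j := by
          ext; simpa using h2
        have h3 := pow_inj_mod.mp h0
        rw [← orderOf_units, Units.val_mk0, hord, Nat.mod_eq_of_lt hi, Nat.mod_eq_of_lt hj] at h3
        exact h3
      have himg : (Finset.range (q - 1)).image (fun j : ℕ => z ^ p ^ j) =
          (nthRootsFinset q (1 : K)).erase 1 := by
        apply Finset.eq_of_subset_of_card_le
        · intro w hw
          rw [Finset.mem_image] at hw
          obtain ⟨j, _, rfl⟩ := hw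
          rw [Finset.mem_erase, mem_nthRootsFinset hqpos]
          refine ⟨?_, ?_⟩
          · intro h
            have h1 : q ∣ p ^ j := by rw [← hzord]; exact orderOf_dvd_of_pow_eq_one h
            have h2 := hq.out.dvd_of_dvd_pow h1
            exact hpq ((Nat.prime_dvd_prime_iff_eq hq.out hp.out).mp h2).symm
          · rw [← pow_mul, mul_comm, pow_mul, hz, one_pow]
        · rw [Finset.card_image_of_injOn hinj, Finset.card_range, Finset.card_erase_of_mem,
            hζ.card_nthRootsFinset]
          rw [mem_nthRootsFinset hqpos]; simp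
      have := prod_erase_eq_one (K := K) hdiv hζ u hu
      rw [← himg, Finset.prod_image hinj] at this
      exact this

lemma frob_poly (b u : ZMod p) (j : ℕ) :
    (C b * (X - C u) : (ZMod p)[X]) ^ p ^ j = C b * (X ^ p ^ j - C u) := by
  rw [mul_pow, sub_pow_char_pow, ← C_pow, ← C_pow, ZMod.pow_card_pow, ZMod.pow_card_pow]

/-- geometric sum -/
lemma geom (p n : ℕ) (hp1 : 1 ≤ p) : (p - 1) * ∑ j ∈ Finset.range n, p ^ j = p ^ n - 1 := by
  induction n with
  | zero => simp
  | succ n ih =>
    rw [Finset.sum_range_succ, mul_add, ih, pow_succ]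
    have h1 : 1 ≤ p ^ n := Nat.one_le_pow _ _ hp1
    obtain ⟨r, rfl⟩ : ∃ r, p = r + 1 := ⟨p - 1, by omega⟩
    simp only [Nat.add_sub_cancel]
    obtain ⟨t, ht⟩ : ∃ t, (r + 1) ^ n = t + 1 := ⟨(r + 1) ^ n - 1, by omega⟩
    rw [ht]
    have : (t + 1) * (r + 1) - 1 = t + r * (t + 1) := by
      have : (t + 1) * (r + 1) = t + r * (t + 1) + 1 := by ring
      omega
    rw [this]; simp

/-- case `u ≠ 1` -/
lemma case_generic (hord : orderOf (p : ZMod q) = q - 1) (hdiv : (p - 1) ∣ (q - 1))
    (b u : ZMod p) (hb : b ≠ 0) (hu : u ≠ 1) :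
    elt q p (-(b * u)) b ^ ((∑ j ∈ Finset.range (q - 1), p ^ j) + 0) =
      elt q p (-(b * u)) b ^ 0 := by
  rw [elt_pow_eq_iff]
  have h0 : (C (-(b * u)) + C b * X : (ZMod p)[X]) = C b * (X - C u) := by
    rw [C_neg, C_mul]; ring
  rw [h0, add_zero, pow_zero, ← Finset.prod_pow_eq_pow_sum]
  simp only [frob_poly]
  rw [Finset.prod_mul_distrib, Finset.prod_const, Finset.card_range, ← C_pow]
  obtain ⟨c, hc⟩ := id hdiv
  have hb1 : b ^ (q - 1) = 1 := by
    rw [hc, pow_mul, ZMod.pow_card_sub_one_eq_one hb, one_pow]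
  rw [hb1, C_1, one_mul]
  exact key_dvd hord hdiv u hu

omit hq in
/-- case `u = 0` -/
lemma case_zero (b : ZMod p) (hb : b ≠ 0) :
    elt q p 0 b ^ (q * (p - 1) + 0) = elt q p 0 b ^ 0 := by
  have h1 : elt q p 0 b ^ q = AdjoinRoot.mk _ (C (b ^ q)) := by
    unfold elt
    rw [← map_pow, AdjoinRoot.mk_eq_mk]
    refine ⟨C (b ^ q), ?_⟩
    rw [C_0, zero_add, mul_pow, ← C_pow]; ring
  rw [add_zero, pow_zero, pow_mul, h1, ← map_pow, ← C_pow, ← pow_mul, mul_comm, pow_mul,
    ZMod.pow_card_sub_one_eq_one hb, one_pow, C_1, map_one]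

omit hq in
/-- case `b = 0`, `a ≠ 0` -/
lemma case_const (a : ZMod p) (ha : a ≠ 0) :
    elt q p a 0 ^ ((p - 1) + 0) = elt q p a 0 ^ 0 := by
  unfold elt
  rw [add_zero, pow_zero, C_0, zero_mul, add_zero, ← map_pow, ← C_pow,
    ZMod.pow_card_sub_one_eq_one ha, C_1, map_one]

omit hq in
/-- case `a = b = 0` -/
lemma case_bot : elt q p 0 0 ^ (1 + 1) = elt q p 0 0 ^ 1 := by
  unfold elt
  simp

omit hp in
/-- `q` divides `p^((q-1)/2) + 1` -/
lemma half_order (hord : orderOf (p : ZMod q) = q - 1) (hq7 : 7 ≤ q) :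
    q ∣ p ^ ((q - 1) / 2) + 1 := by
  have hodd : Odd q := hq.out.odd_of_ne_two (by omega)
  obtain ⟨s, hs⟩ := hodd
  have hs2 : (q - 1) / 2 = s := by omega
  rw [hs2]
  have h1 : (p : ZMod q) ^ (q - 1) = 1 := by rw [← hord]; exact pow_orderOf_eq_one _
  have h2 : q - 1 = s * 2 := by omega
  rw [h2, pow_mul] at h1
  rw [sq] at h1
  rcases mul_self_eq_one_iff.mp h1 with h | h
  · exfalso
    have h3 : orderOf (p : ZMod q) ∣ s := orderOf_dvd_of_pow_eq_one h
    rw [hord] at h3
    have := Nat.le_of_dvd (by omega) h3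
    omega
  · rw [← ZMod.natCast_eq_zero_iff]
    push_cast
    rw [h]; ring

/-- case `u = 1`: relation `x β^(p^s) = -β` iterated. -/
lemma case_one (hord : orderOf (p : ZMod q) = q - 1) (hq7 : 7 ≤ q) (b : ZMod p) (hb : b ≠ 0)
    (m : ℕ) (hm : q ∣ m) (hm2 : (-1 : ZMod p) ^ m = 1) :
    elt q p (-b) b ^ (m * (p ^ ((q - 1) / 2) - 1) + 1) = elt q p (-b) b ^ 1 := by
  set s := (q - 1) / 2 with hs
  obtain ⟨c, hc⟩ := half_order (p := p) hord hq7
  rw [← hs] at hc
  have hq0 : 0 < q := hq.out.pos
  have hps : 1 ≤ p ^ s := Nat.one_le_pow _ _ hp.out.pos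
  -- work in the ring
  let f : (ZMod p)[X] := X ^ q - 1
  let x : AdjoinRoot f := AdjoinRoot.mk f X
  let β : AdjoinRoot f := x - 1
  have hxq : x ^ q = 1 := by
    show (AdjoinRoot.mk f X) ^ q = 1
    rw [← map_pow, ← map_one (AdjoinRoot.mk f), AdjoinRoot.mk_eq_mk]
  have helt : elt q p (-b) b = AdjoinRoot.mk f (C b) * β := by
    show AdjoinRoot.mk f (C (-b) + C b * X) = AdjoinRoot.mk f (C b) * (AdjoinRoot.mk f X - 1)
    rw [← map_one (AdjoinRoot.mk f), ← map_sub, ← map_mul]
    congr 1
    rw [C_neg]; ring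
  have hβ : β ^ p ^ s = x ^ p ^ s - 1 := by
    show (AdjoinRoot.mk f X - 1) ^ p ^ s = (AdjoinRoot.mk f X) ^ p ^ s - 1
    rw [← map_one (AdjoinRoot.mk f), ← map_sub, ← map_pow, ← map_pow, ← map_sub]
    congr 1
    rw [sub_pow_char_pow, one_pow]
  -- x * β^(p^s) = -β
  have hxβ : x * β ^ p ^ s = -β := by
    rw [hβ, mul_sub, mul_one, ← pow_succ']
    have : x ^ (p ^ s + 1) = 1 := by rw [hc, pow_mul, hxq, one_pow]
    rw [this]; simp [β]
  have hβs : β ^ p ^ s = (-(x ^ (q - 1))) * β := by
    have h1 : x ^ (q - 1) * (x * β ^ p ^ s) = x ^ (q - 1) * (-β) := by rw [hxβ]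
    have h2 : x ^ (q - 1) * x = 1 := by
      rw [← pow_succ]
      have : q - 1 + 1 = q := by omega
      rw [this, hxq]
    rw [← mul_assoc, h2, one_mul] at h1
    rw [h1]; ring
  have hit : ∀ n : ℕ, β ^ (n * (p ^ s - 1) + 1) = (-(x ^ (q - 1))) ^ n * β := by
    intro n
    induction n with
    | zero => simp
    | succ n ih =>
      have h1 : (n + 1) * (p ^ s - 1) + 1 = (n * (p ^ s - 1) + 1) + (p ^ s - 1) := by ring
      rw [h1, pow_add, ih]
      have h2 : (-(x ^ (q - 1))) ^ n * β * β ^ (p ^ s - 1) =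
          (-(x ^ (q - 1))) ^ n * (β ^ (p ^ s - 1) * β) := by ring
      rw [h2, ← pow_succ]
      have h3 : p ^ s - 1 + 1 = p ^ s := by omega
      rw [h3, hβs]; ring
  have hy : (-(x ^ (q - 1))) ^ m = 1 := by
    rw [neg_pow, ← pow_mul, mul_comm (q - 1) m, pow_mul]
    obtain ⟨t, rfl⟩ := hm
    have h1 : x ^ (q * t) = 1 := by rw [pow_mul, hxq, one_pow]
    rw [h1, one_pow, mul_one]
    have h2 : ((-1 : AdjoinRoot f)) = AdjoinRoot.mk f (C (-1)) := by
      rw [C_neg, C_1, map_neg, map_one]
    rw [h2, ← map_pow, ← C_pow, hm2, C_1, map_one]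
  have hbm : b ^ (m * (p ^ s - 1) + 1) = b := by
    rw [pow_succ]
    have h1 : (p - 1) ∣ p ^ s - 1 := by
      have := Nat.sub_dvd_pow_sub_pow p 1 s
      simpa using this
    obtain ⟨t, ht⟩ := h1
    rw [ht, mul_comm m, mul_assoc, pow_mul, ZMod.pow_card_sub_one_eq_one hb, one_pow, one_mul]
  rw [helt, mul_pow, hit m, hy, ← map_pow, ← C_pow, hbm]
  ring

end aux

/-- **Theorem.** Let `p` be a prime and `q ≥ 7` a prime with `(p-1) ∣ (q-1)` for which `p` is a
primitive root modulo `q`.  Then the additive bound is not attained at `σ = q`. -/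
theorem result (p q : ℕ) (hp : p.Prime) (hq : q.Prime) (hq7 : 7 ≤ q) (hdiv : (p - 1) ∣ (q - 1))
    (hord : orderOf (p : ZMod q) = q - 1) : maxPeriod q p < ub q p := by
  have : Fact p.Prime := ⟨hp⟩
  have : Fact q.Prime := ⟨hq⟩
  have hpq : p ≠ q := by
    rintro rfl
    have h0 : ((p : ℕ) : ZMod p) = 0 := by simp
    rw [h0] at hord
    have h1 : (0 : ZMod p) ^ (p - 1) = 1 := by
      have := pow_orderOf_eq_one (0 : ZMod p)
      rwa [hord] at this
    have h2 := hp.two_le
    rw [zero_pow (by omega)] at h1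
    exact zero_ne_one h1
  have hub : ub q p = p ^ (q - 1) - 1 := by
    unfold ub
    have h1 : padicValNat p q = 0 := by
      apply padicValNat.eq_zero_of_not_dvd
      intro h
      exact hpq ((Nat.prime_dvd_prime_iff_eq hp hq).mp h)
    rw [h1, pow_zero, Nat.div_one, one_mul, if_neg (by omega), hord]
  rw [hub]
  -- numerical facts
  set s := (q - 1) / 2 with hs
  have hodd : Odd q := hq.odd_of_ne_two (by omega)
  have hqs : q = 2 * s + 1 := by obtain ⟨t, ht⟩ := hodd; omega
  have hs3 : 3 ≤ s := by omega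
  have hp2 := hp.two_le
  set S := ∑ j ∈ Finset.range (q - 1), p ^ j with hS
  have hgeom : (p - 1) * S = p ^ (q - 1) - 1 := geom p (q - 1) (by omega)
  have hSbig : q < S := by
    have h1 : ∑ j ∈ Finset.range (q - 1), 2 ^ j ≤ S := by
      apply Finset.sum_le_sum
      intro j _
      exact Nat.pow_le_pow_left hp2 j
    have h2 : ∑ j ∈ Finset.range (q - 1), 2 ^ j = 2 ^ (q - 1) - 1 := by
      have := geom 2 (q - 1) (by norm_num)
      simpa using this
    have h3 : ∀ n : ℕ, 6 ≤ n → n + 2 < 2 ^ n := by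
      intro n hn
      induction n, hn using Nat.le_induction with
      | base => norm_num
      | succ n hn ih => rw [pow_succ]; omega
    have := h3 (q - 1) (by omega)
    omega
  have hlt : ∀ k, k ≤ (p - 1) * q → k < p ^ (q - 1) - 1 := by
    intro k hk
    rw [← hgeom]
    calc k ≤ (p - 1) * q := hk
      _ < (p - 1) * S := Nat.mul_lt_mul_of_pos_left hSbig (by omega)
  have hfac : p ^ (q - 1) - 1 = (p ^ s + 1) * (p ^ s - 1) := by
    have h1 : q - 1 = s * 2 := by omega
    have h2 := Nat.sq_sub_sq (p ^ s) 1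
    rw [h1, pow_mul]
    simpa using h2
  have hps1 : 1 < p ^ s := Nat.one_lt_pow (by omega) (by omega)
  -- bound each period
  have hbound : ∀ a b : ZMod p, period q p a b < p ^ (q - 1) - 1 := by
    intro a b
    by_cases hb : b = 0
    · subst hb
      by_cases ha : a = 0
      · subst ha
        refine lt_of_le_of_lt (period_le 0 0 (le_refl 1) case_bot) (hlt 1 ?_)
        have : 1 * 1 ≤ (p - 1) * q := Nat.mul_le_mul (by omega) (by omega)
        simpa using this
      · refine lt_of_le_of_lt (period_le a 0 (by omega) (case_const (q := q) a ha)) (hlt _ ?_)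
        exact Nat.le_mul_of_pos_right _ (by omega)
    · -- b ≠ 0, put u = -a/b
      obtain ⟨u, hu⟩ : ∃ u : ZMod p, a = -(b * u) := ⟨-(a / b), by field_simp⟩
      subst hu
      by_cases hu0 : u = 0
      · subst hu0
        have h1 : (-(b * 0) : ZMod p) = 0 := by simp
        rw [h1]
        refine lt_of_le_of_lt (period_le 0 b ?_ (case_zero b hb)) (hlt _ ?_)
        · exact Nat.mul_pos (by omega) (by omega)
        · rw [mul_comm]
      by_cases hu1 : u = 1
      · subst hu1
        rw [mul_one]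
        by_cases hp2' : p = 2
        · -- p = 2, use m = q
          have hm2 : (-1 : ZMod p) ^ q = 1 := by
            subst hp2'
            rw [neg_one_zmod_two, one_pow]
          refine lt_of_le_of_lt (period_le _ b ?_ (case_one hord hq7 b hb q (dvd_refl q) hm2)) ?_
          · exact Nat.mul_pos (by omega) (by rw [← hs]; omega)
          · rw [← hs, hfac]
            apply Nat.mul_lt_mul_of_pos_right _ (by omega)
            subst hp2'
            have h3 : ∀ n : ℕ, 3 ≤ n → 2 * n < 2 ^ n := by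
              intro n hn
              induction n, hn using Nat.le_induction with
              | base => norm_num
              | succ n hn ih => rw [pow_succ]; omega
            have := h3 s hs3
            omega
        · have hm2 : (-1 : ZMod p) ^ (2 * q) = 1 := by
            rw [pow_mul]; simp
          refine lt_of_le_of_lt
            (period_le _ b ?_ (case_one hord hq7 b hb (2 * q) (Dvd.intro_left 2 rfl) hm2)) ?_
          · exact Nat.mul_pos (by omega) (by rw [← hs]; omega)
          · rw [← hs, hfac]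
            apply Nat.mul_lt_mul_of_pos_right _ (by omega)
            have h3 : ∀ n : ℕ, 3 ≤ n → 4 * n + 2 < 3 ^ n + 1 := by
              intro n hn
              induction n, hn using Nat.le_induction with
              | base => norm_num
              | succ n hn ih => rw [pow_succ]; omega
            have h4 := h3 s hs3
            have h5 : 3 ^ s ≤ p ^ s := Nat.pow_le_pow_left (by omega) s
            omega
      · have hp3 : 3 ≤ p := by
          rcases Nat.lt_or_ge 2 p with h | h
          · exact h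
          · exfalso
            have : p = 2 := by omega
            subst this
            exact zmod_two_cases u hu0 hu1
        refine lt_of_le_of_lt (period_le _ b ?_ (case_generic hord hdiv b u hb hu1)) ?_
        · omega
        · rw [← hgeom]
          have : 2 * S ≤ (p - 1) * S := Nat.mul_le_mul_right _ (by omega)
          omega
  -- conclude
  unfold maxPeriod
  have hfin : (Set.range fun ab : ZMod p × ZMod p => period q p ab.1 ab.2).Finite :=
    Set.finite_range _
  rw [iSup]
  rw [Set.Finite.csSup_lt_iff hfin (Set.range_nonempty _)]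
  rintro k ⟨ab, rfl⟩
  exact hbound ab.1 ab.2

end Pool.H17.MV.ArtinCriterion
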