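import Mathlib
import Pool.Agent.H62.PNT

/-!
# Packing the progressions `A_p`, `p ≤ √n` prime: definitions of the statement
-/

open Finset Filter Topology

namespace Pool.H17.MV.PrimeProgressions

/-- `A_d = {d, 2d, …, ⌊n/d⌋ d}`, the multiples of `d` in `[n]`, as a set of integers. -/
def prog (n d : ℕ) : Finset ℤ := (Finset.Icc 1 (n / d)).image (fun a : ℕ => (a : ℤ) * (d : ℤ))

/-- The family `A_d` (`d ∈ D`) packs into `[m] = {1, …, m}`: there are integer shifts `s d` such that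
the translates `s d + A_d` lie in `[m]` and are pairwise disjoint. -/
def Packs (n : ℕ) (D : Finset ℕ) (m : ℕ) : Prop :=
  ∃ s : ℕ → ℤ, (∀ d ∈ D, ∀ a ∈ prog n d, s d + a ∈ Finset.Icc (1 : ℤ) m) ∧
    ∀ d ∈ D, ∀ e ∈ D, d ≠ e → ∀ a ∈ prog n d, ∀ b ∈ prog n e, s d + a ≠ s e + b

/-- `m_D(n)`: the least `m` such that the family `A_d` (`d ∈ D`) packs into `[m]`. -/
noncomputable def mPack (n : ℕ) (D : Finset ℕ) : ℕ := sInf {m : ℕ | Packs n D m}

/-- The set `P(√n)` of primes `p ≤ √n`. -/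
def primesUpToSqrt (n : ℕ) : Finset ℕ := (Finset.Icc 1 (Nat.sqrt n)).filter Nat.Prime

end Pool.H17.MV.PrimeProgressions
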