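import Mathlib
import Pool.Agent.H62.PNT
import Pool.Agent.H17.MV.PrimeProgressionsDefs

/-!
# Packing the progressions `A_p`, `p ≤ √n` prime: the proof
-/

open Finset Filter Topology

namespace Pool.H17.MV.PrimeProgressions

section kron

open Complex in
/-- orthogonality: only the constant term survives -/
lemma ortho {ι : Type*} [Fintype ι] [DecidableEq ι] (q : ℕ) (hq : 0 < q) (w : ι → ℤ) (m : ℕ)
    (hnd : ∀ h : ι → ℤ, (∀ i, |h i| ≤ m) → (q : ℤ) ∣ ∑ i, h i * w i → h = 0)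
    (a : ι → ℕ → ℂ) :
    ∑ v ∈ range q, ∏ i, ∑ k ∈ range (2 * m + 1),
      a i k * Complex.exp (2 * Real.pi * I * ((v : ℂ) * w i / q) * ((k : ℂ) - m)) =
      q * ∏ i, a i m := by
  classical
  have hqc : (q : ℂ) ≠ 0 := by exact_mod_cast hq.ne'
  have h1 : ∀ v : ℕ, (∏ i, ∑ k ∈ range (2 * m + 1),
      a i k * Complex.exp (2 * Real.pi * I * ((v : ℂ) * w i / q) * ((k : ℂ) - m))) =
      ∑ x ∈ Fintype.piFinset (fun _ : ι => range (2 * m + 1)),
        (∏ i, a i (x i)) * Complex.exp (2 * Real.pi * I / q * ((∑ i, ((x i : ℤ) - m) * w i : ℤ) : ℂ)) ^ v := by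
    intro v
    rw [Finset.prod_univ_sum]
    apply Finset.sum_congr rfl
    intro x _
    rw [Finset.prod_mul_distrib, ← Complex.exp_sum, ← Complex.exp_nat_mul]
    congr 2
    push_cast
    rw [Finset.mul_sum, Finset.mul_sum]
    apply Finset.sum_congr rfl
    intro i _
    ring
  simp_rw [h1]
  rw [Finset.sum_comm]
  have h2 : ∀ x ∈ Fintype.piFinset (fun _ : ι => range (2 * m + 1)),
      (∑ v ∈ range q, (∏ i, a i (x i)) *
        Complex.exp (2 * Real.pi * I / q * ((∑ i, ((x i : ℤ) - m) * w i : ℤ) : ℂ)) ^ v) =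
      if x = (fun _ => m) then q * ∏ i, a i m else 0 := by
    intro x hx
    rw [Fintype.mem_piFinset] at hx
    rw [← Finset.mul_sum]
    set S : ℤ := ∑ i, ((x i : ℤ) - m) * w i with hS
    set ω := Complex.exp (2 * Real.pi * I / q * (S : ℂ)) with hω
    have hωq : ω ^ q = 1 := by
      rw [hω, ← Complex.exp_nat_mul]
      have : (q : ℂ) * (2 * Real.pi * I / q * (S : ℂ)) = S * (2 * Real.pi * I) := by
        field_simp
      rw [this]
      exact Complex.exp_int_mul_two_pi_mul_I S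
    by_cases hx0 : x = (fun _ => m)
    · rw [if_pos hx0]
      have hS0 : S = 0 := by
        rw [hS, hx0]; simp
      have hω1 : ω = 1 := by rw [hω, hS0]; simp
      rw [hω1, hx0]
      simp
      ring
    · rw [if_neg hx0]
      have hω1 : ω ≠ 1 := by
        intro h
        rw [hω, Complex.exp_eq_one_iff] at h
        obtain ⟨l, hl⟩ := h
        apply hx0
        have hdiv : (q : ℤ) ∣ S := by
          refine ⟨l, ?_⟩
          have h3 : (S : ℂ) = q * l := by
            have hpi : (2 * Real.pi * I : ℂ) ≠ 0 := Complex.two_pi_I_ne_zero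
            field_simp at hl
            have : (2 * Real.pi * I : ℂ) * (S - q * l) = 0 := by
              linear_combination (2 * Real.pi * I : ℂ) * hl
            rcases mul_eq_zero.mp this with h | h
            · exact absurd h hpi
            · linear_combination h
          exact_mod_cast h3
        have h4 := hnd (fun i => (x i : ℤ) - m) (fun i => by
          have := hx i
          rw [Finset.mem_range] at this
          rw [abs_le]
          constructor <;> omega) hdiv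
        funext i
        have h5 := congrFun h4 i
        simp only [Pi.zero_apply] at h5
        omega
      have hgeom : ∑ v ∈ range q, ω ^ v = 0 := by
        have := geom_sum_mul ω q
        rw [hωq, sub_self] at this
        rcases mul_eq_zero.mp this with h | h
        · exact h
        · exact absurd (sub_eq_zero.mp h) hω1
      rw [hgeom, mul_zero]
  rw [Finset.sum_congr rfl h2, Finset.sum_ite_eq']
  rw [if_pos]
  rw [Fintype.mem_piFinset]
  intro i
  rw [Finset.mem_range]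
  omega

/-- the kernel `cos²(πθ)^m` as a trigonometric polynomial -/
lemma kernel_expand (m : ℕ) (θ : ℝ) :
    (((Real.cos (Real.pi * θ) ^ 2) ^ m : ℝ) : ℂ) = ∑ k ∈ range (2 * m + 1),
      ((2 * m).choose k / 4 ^ m : ℂ) * Complex.exp (2 * Real.pi * Complex.I * θ * ((k : ℂ) - m)) := by
  set y := Complex.exp (Real.pi * Complex.I * θ) with hy
  have hy0 : y ≠ 0 := Complex.exp_ne_zero _
  have hcos : ((Real.cos (Real.pi * θ) : ℝ) : ℂ) = (y + y⁻¹) / 2 := by
    rw [Complex.ofReal_cos, Complex.cos, hy, ← Complex.exp_neg]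
    congr 2
    · congr 1; push_cast; ring
    · congr 1; push_cast; ring
  have hterm : ∀ k ∈ range (2 * m + 1), ((2 * m).choose k / 4 ^ m : ℂ) *
      Complex.exp (2 * Real.pi * Complex.I * θ * ((k : ℂ) - m)) =
      (y ^ 2) ^ k * ((2 * m).choose k) * ((y ^ (2 * m))⁻¹ / 4 ^ m) := by
    intro k _
    have e1 : 2 * Real.pi * Complex.I * θ * ((k : ℂ) - m) =
        ((2 * k : ℕ) : ℂ) * (Real.pi * Complex.I * θ) - ((2 * m : ℕ) : ℂ) * (Real.pi * Complex.I * θ) := by
      push_cast; ring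
    rw [e1, Complex.exp_sub, Complex.exp_nat_mul, Complex.exp_nat_mul, ← hy, pow_mul y 2 k]
    field_simp
  rw [Finset.sum_congr rfl hterm, ← Finset.sum_mul]
  have hb := add_pow (y ^ 2) 1 (2 * m)
  simp only [one_pow, mul_one] at hb
  rw [← hb]
  push_cast
  have e2 : ((Real.cos (Real.pi * θ) : ℝ) : ℂ) = Complex.cos (Real.pi * θ) := by push_cast; rfl
  rw [← e2, hcos]
  have e3 : y ^ 2 + 1 = y * (y + y⁻¹) := by field_simp
  rw [e3, mul_pow, div_pow, div_pow, ← pow_mul, ← pow_mul]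
  have e4 : (2 : ℂ) ^ (2 * m) = 4 ^ m := by rw [pow_mul]; norm_num
  rw [e4]
  field_simp

/-- cos² bound away from integers -/
lemma cos_sq_le {θ β : ℝ} (hβ0 : 0 ≤ β) (h : ∀ l : ℤ, β < |θ - l|) :
    Real.cos (Real.pi * θ) ^ 2 ≤ Real.cos (Real.pi * β) ^ 2 := by
  set l := round θ with hl
  have h1 : |θ - l| ≤ 1 / 2 := abs_sub_round θ
  have h2 := h l
  have h3 : Real.cos (Real.pi * θ) ^ 2 = Real.cos (Real.pi * |θ - l|) ^ 2 := by
    have e1 : Real.cos (Real.pi * |θ - l|) = Real.cos (Real.pi * (θ - l)) := by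
      rcases abs_cases (θ - l) with ⟨h, _⟩ | ⟨h, _⟩
      · rw [h]
      · rw [h, mul_neg, Real.cos_neg]
    rw [e1]
    have e2 : Real.pi * (θ - l) = Real.pi * θ - l * Real.pi := by ring
    rw [e2, Real.cos_sub_int_mul_pi, mul_pow]
    rcases Int.even_or_odd l with h | h
    · rw [h.neg_one_zpow]; ring
    · rw [h.neg_one_zpow]; ring
  rw [h3]
  apply pow_le_pow_left₀
  · apply Real.cos_nonneg_of_neg_pi_div_two_le_of_le
    · have : 0 ≤ Real.pi * |θ - l| := by positivity
      linarith [Real.pi_pos]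
    · nlinarith [Real.pi_pos]
  · apply Real.cos_le_cos_of_nonneg_of_le_pi
    · positivity
    · nlinarith [Real.pi_pos]
    · nlinarith [Real.pi_pos]

lemma kronecker {ι : Type*} [Fintype ι] [DecidableEq ι] (q : ℕ) (hq : 0 < q) (w : ι → ℤ) (J m : ℕ)
    (hJ : Fintype.card ι ≤ J)
    (hnd : ∀ h : ι → ℤ, (∀ i, |h i| ≤ m) → (q : ℤ) ∣ ∑ i, h i * w i → h = 0)
    (β : ℝ) (hβ0 : 0 ≤ β) (hβ : β ≤ 1 / 2)
    (hm : J * (Real.cos (Real.pi * β) ^ 2) ^ m < (2 * m).choose m / 4 ^ m)
    (τ : ι → ℝ) :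
    ∃ v : ℕ, v < q ∧ ∀ i, ∃ l : ℤ, |(v : ℝ) * w i / q - τ i - l| ≤ β := by
  by_contra hcon
  push Not at hcon
  set A : ℝ := (2 * m).choose m / 4 ^ m with hA
  have hApos : 0 < A := by
    rw [hA]
    have : 0 < (2 * m).choose m := Nat.choose_pos (by omega)
    positivity
  set c := (Real.cos (Real.pi * β) ^ 2) ^ m with hc
  have hc0 : 0 ≤ c := by positivity
  set g : ι → ℕ → ℝ := fun i v => (Real.cos (Real.pi * ((v : ℝ) * w i / q - τ i)) ^ 2) ^ m with hg
  have hg0 : ∀ i v, 0 ≤ g i v := fun i v => by rw [hg]; positivity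
  -- expansions
  have hexp : ∀ i v, (g i v : ℂ) = ∑ k ∈ range (2 * m + 1),
      (((2 * m).choose k / 4 ^ m : ℂ) * Complex.exp (-(2 * Real.pi * Complex.I * τ i * ((k : ℂ) - m)))) *
        Complex.exp (2 * Real.pi * Complex.I * ((v : ℂ) * w i / q) * ((k : ℂ) - m)) := by
    intro i v
    rw [hg]
    simp only
    rw [kernel_expand]
    apply Finset.sum_congr rfl
    intro k _
    rw [mul_assoc ((((2 * m).choose k : ℕ) : ℂ) / 4 ^ m) (Complex.exp _) (Complex.exp _), ← Complex.exp_add]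
    congr 2
    push_cast
    ring
  have hS1 : ∑ v ∈ range q, ∏ i, g i v = q * A ^ Fintype.card ι := by
    have h1 : ((∑ v ∈ range q, ∏ i, g i v : ℝ) : ℂ) = ((q * A ^ Fintype.card ι : ℝ) : ℂ) := by
      push_cast
      simp_rw [hexp]
      rw [ortho q hq w m hnd]
      simp [hA, Finset.card_univ, div_pow]
    exact_mod_cast h1
  have hS2 : ∀ i, ∑ v ∈ range q, ∏ j ∈ univ.erase i, g j v = q * A ^ (Fintype.card ι - 1) := by
    intro i
    have h1 : ((∑ v ∈ range q, ∏ j ∈ univ.erase i, g j v : ℝ) : ℂ) =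
        ((q * A ^ (Fintype.card ι - 1) : ℝ) : ℂ) := by
      have h2 : ∀ v : ℕ, ((∏ j ∈ univ.erase i, g j v : ℝ) : ℂ) = ∏ j, ∑ k ∈ range (2 * m + 1),
          (if j = i then (if k = m then 1 else 0) else
            (((2 * m).choose k / 4 ^ m : ℂ) *
              Complex.exp (-(2 * Real.pi * Complex.I * τ j * ((k : ℂ) - m))))) *
          Complex.exp (2 * Real.pi * Complex.I * ((v : ℂ) * w j / q) * ((k : ℂ) - m)) := by
        intro v
        rw [← Finset.mul_prod_erase univ _ (Finset.mem_univ i)]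
        have h3 : (∑ k ∈ range (2 * m + 1),
          (if i = i then (if k = m then (1 : ℂ) else 0) else
            (((2 * m).choose k / 4 ^ m : ℂ) *
              Complex.exp (-(2 * Real.pi * Complex.I * τ i * ((k : ℂ) - m))))) *
          Complex.exp (2 * Real.pi * Complex.I * ((v : ℂ) * w i / q) * ((k : ℂ) - m))) = 1 := by
          simp only [if_true, ite_mul, one_mul, zero_mul]
          rw [Finset.sum_ite_eq', if_pos (by rw [Finset.mem_range]; omega)]
          simp
        rw [h3, one_mul]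
        push_cast
        apply Finset.prod_congr rfl
        intro j hj
        rw [hexp]
        apply Finset.sum_congr rfl
        intro k _
        rw [if_neg (Finset.ne_of_mem_erase hj)]
      rw [Complex.ofReal_sum]
      simp_rw [h2]
      rw [ortho q hq w m hnd]
      push_cast
      congr 1
      rw [← Finset.mul_prod_erase univ _ (Finset.mem_univ i)]
      simp only [if_true, one_mul]
      rw [Finset.prod_congr rfl (g := fun _ => (A : ℂ))]
      · rw [Finset.prod_const, Finset.card_erase_of_mem (Finset.mem_univ i), Finset.card_univ]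
      · intro j hj
        rw [if_neg (Finset.ne_of_mem_erase hj)]
        simp [hA]
    exact_mod_cast h1
  -- pointwise bound
  have hpt : ∀ v ∈ range q, ∏ i, g i v ≤ ∑ i, c * ∏ j ∈ univ.erase i, g j v := by
    intro v hv
    rw [Finset.mem_range] at hv
    obtain ⟨i, hi⟩ := hcon v hv
    have h1 : g i v ≤ c := by
      rw [hg, hc]
      apply pow_le_pow_left₀ (by positivity)
      exact cos_sq_le hβ0 hi
    calc ∏ i, g i v = g i v * ∏ j ∈ univ.erase i, g j v :=
          (Finset.mul_prod_erase univ _ (Finset.mem_univ i)).symm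
      _ ≤ c * ∏ j ∈ univ.erase i, g j v :=
          mul_le_mul_of_nonneg_right h1 (Finset.prod_nonneg fun j _ => hg0 j v)
      _ ≤ ∑ i, c * ∏ j ∈ univ.erase i, g j v := by
          apply Finset.single_le_sum (f := fun i => c * ∏ j ∈ univ.erase i, g j v) _ (Finset.mem_univ i)
          intro j _
          exact mul_nonneg hc0 (Finset.prod_nonneg fun j _ => hg0 j v)
  have hsum := Finset.sum_le_sum hpt
  rw [hS1, Finset.sum_comm] at hsum
  simp_rw [← Finset.mul_sum, hS2] at hsum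
  rw [Finset.sum_const, Finset.card_univ, nsmul_eq_mul] at hsum
  have hqr : (0 : ℝ) < q := by exact_mod_cast hq
  rcases Nat.eq_zero_or_pos (Fintype.card ι) with h0 | h0
  · rw [h0] at hsum
    simp at hsum
    omega
  · obtain ⟨N, hN⟩ : ∃ N, Fintype.card ι = N + 1 := ⟨Fintype.card ι - 1, by omega⟩
    rw [hN] at hsum
    simp only [Nat.add_sub_cancel] at hsum
    have h1 : (q : ℝ) * A ^ N * A ≤ (q : ℝ) * A ^ N * (((N + 1 : ℕ) : ℝ) * c) := by
      calc (q : ℝ) * A ^ N * A = q * A ^ (N + 1) := by ring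
        _ ≤ _ := hsum
        _ = _ := by ring
    have h2 := le_of_mul_le_mul_left h1 (by positivity)
    have h3 : ((N + 1 : ℕ) : ℝ) * c ≤ J * c := by
      apply mul_le_mul_of_nonneg_right _ hc0
      exact_mod_cast (hN ▸ hJ)
    linarith

/-- a suitable degree `m` exists. -/
lemma exists_degree (J : ℕ) (β : ℝ) (hβ0 : 0 < β) (hβ : β ≤ 1 / 2) :
    ∃ m : ℕ, J * (Real.cos (Real.pi * β) ^ 2) ^ m < (2 * m).choose m / 4 ^ m := by
  set c := Real.cos (Real.pi * β) ^ 2 with hc
  have hc0 : 0 ≤ c := by positivity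
  have hc1 : c < 1 := by
    have h1 : 0 < Real.sin (Real.pi * β) := by
      apply Real.sin_pos_of_pos_of_lt_pi
      · positivity
      · nlinarith [Real.pi_pos]
    have h2 := Real.sin_sq_add_cos_sq (Real.pi * β)
    have h3 : 0 < Real.sin (Real.pi * β) ^ 2 := by positivity
    rw [hc]; linarith
  have ht : Filter.Tendsto (fun m : ℕ => (J : ℝ) * (2 * (m : ℝ) ^ 1 * c ^ m + c ^ m)) Filter.atTop (nhds ((J : ℝ) * (2 * 0 + 0))) := by
    apply Filter.Tendsto.const_mul
    apply Filter.Tendsto.add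
    · have := (tendsto_pow_const_mul_const_pow_of_lt_one 1 hc0 hc1).const_mul 2
      simpa [mul_assoc] using this
    · exact tendsto_pow_atTop_nhds_zero_of_lt_one hc0 hc1
  have hev := ht.eventually (gt_mem_nhds (show (J : ℝ) * (2 * 0 + 0) < 1 by simp))
  obtain ⟨m, hm⟩ := hev.exists
  refine ⟨m, ?_⟩
  have h4 : (4 : ℝ) ^ m ≤ (2 * m + 1) * ((2 * m).choose m) := by
    have := Nat.four_pow_le_two_mul_add_one_mul_central_binom m
    exact_mod_cast this
  have h5 : (0 : ℝ) < 4 ^ m := by positivity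
  rw [lt_div_iff₀ h5]
  have hcm : 0 ≤ (J : ℝ) * c ^ m := by positivity
  calc (J : ℝ) * c ^ m * 4 ^ m ≤ (J : ℝ) * c ^ m * ((2 * m + 1) * ((2 * m).choose m)) :=
        mul_le_mul_of_nonneg_left h4 hcm
    _ = ((J : ℝ) * (2 * (m : ℝ) ^ 1 * c ^ m + c ^ m)) * ((2 * m).choose m) := by ring
    _ < 1 * ((2 * m).choose m) := by
        apply mul_lt_mul_of_pos_right hm
        exact_mod_cast Nat.choose_pos (by omega)
    _ = _ := by ring

end kron

section exc

/-- the integer `T_h = ∑ h_i ∏_{j ≠ i} p_j`. -/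
def Tsum (W : Finset ℕ) (h : W → ℤ) : ℤ := ∑ i : W, h i * ∏ j ∈ univ.erase i, ((j : ℕ) : ℤ)

lemma Tsum_ne_zero (W : Finset ℕ) (hW : ∀ p ∈ W, p.Prime) (m : ℕ) (hm : ∀ p ∈ W, m < p)
    (h : W → ℤ) (hb : ∀ i, |h i| ≤ m) (h0 : h ≠ 0) : Tsum W h ≠ 0 := by
  classical
  intro hT
  apply h0
  funext i
  by_contra hi
  simp only [Pi.zero_apply] at hi
  have hp : Prime ((i : ℕ) : ℤ) := Nat.prime_iff_prime_int.mp (hW i i.2)
  have h1 : ((i : ℕ) : ℤ) ∣ h i * ∏ j ∈ univ.erase i, ((j : ℕ) : ℤ) := by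
    have h2 : Tsum W h = h i * ∏ j ∈ univ.erase i, ((j : ℕ) : ℤ) +
        ∑ i' ∈ univ.erase i, h i' * ∏ j ∈ univ.erase i', ((j : ℕ) : ℤ) := by
      rw [Tsum, ← Finset.add_sum_erase univ _ (Finset.mem_univ i)]
    have h3 : ((i : ℕ) : ℤ) ∣ ∑ i' ∈ univ.erase i, h i' * ∏ j ∈ univ.erase i', ((j : ℕ) : ℤ) := by
      apply Finset.dvd_sum
      intro i' hi'
      apply Dvd.dvd.mul_left
      apply Finset.dvd_prod_of_mem (fun j : W => ((j : ℕ) : ℤ))
      rw [Finset.mem_erase]
      exact ⟨(Finset.ne_of_mem_erase hi').symm, Finset.mem_univ _⟩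
    rw [hT] at h2
    have h4 : h i * ∏ j ∈ univ.erase i, ((j : ℕ) : ℤ) =
        - ∑ i' ∈ univ.erase i, h i' * ∏ j ∈ univ.erase i', ((j : ℕ) : ℤ) := by linarith
    rw [h4]
    exact (dvd_neg).mpr h3
  rcases hp.dvd_or_dvd h1 with h2 | h2
  · have h3 := Int.le_of_dvd (abs_pos.mpr hi) ((dvd_abs _ _).mpr h2)
    have h4 := hb i
    have h5 := hm i i.2
    omega
  · rw [Prime.dvd_finsetProd_iff hp] at h2
    obtain ⟨j, hj, hj2⟩ := h2
    have h3 : (i : ℕ) ∣ (j : ℕ) := by exact_mod_cast hj2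
    have h4 := (Nat.prime_dvd_prime_iff_eq (hW i i.2) (hW j j.2)).mp h3
    exact (Finset.ne_of_mem_erase hj) (Subtype.ext h4.symm)

lemma Tsum_abs_le (W : Finset ℕ) (J m R : ℕ) (hR : 1 ≤ R) (hJ : W.card ≤ J)
    (hWR : ∀ p ∈ W, p ≤ R) (h : W → ℤ) (hb : ∀ i, |h i| ≤ m) :
    |Tsum W h| ≤ (J * m * R ^ J : ℕ) := by
  classical
  rw [Tsum]
  refine (Finset.abs_sum_le_sum_abs _ _).trans ?_
  have h1 : ∀ i ∈ (univ : Finset W), |h i * ∏ j ∈ univ.erase i, ((j : ℕ) : ℤ)| ≤ (m * R ^ J : ℕ) := by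
    intro i _
    rw [abs_mul, Finset.abs_prod]
    push_cast
    apply mul_le_mul (hb i) _ (Finset.prod_nonneg fun _ _ => abs_nonneg _) (by positivity)
    calc ∏ j ∈ univ.erase i, |((j : ℕ) : ℤ)| ≤ ∏ j ∈ univ.erase i, (R : ℤ) := by
          apply Finset.prod_le_prod (fun _ _ => abs_nonneg _)
          intro j _
          rw [abs_of_nonneg (by positivity)]
          exact_mod_cast hWR j j.2
      _ = (R : ℤ) ^ (univ.erase i).card := by rw [Finset.prod_const]
      _ ≤ (R : ℤ) ^ J := by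
          apply pow_le_pow_right₀ (by exact_mod_cast hR)
          refine (Finset.card_le_card (Finset.erase_subset _ _)).trans ?_
          rw [Finset.card_univ, Fintype.card_coe]
          exact hJ
  refine (Finset.sum_le_card_nsmul _ _ _ h1).trans ?_
  rw [Finset.card_univ, Fintype.card_coe, nsmul_eq_mul]
  push_cast
  have : (W.card : ℤ) ≤ J := by exact_mod_cast hJ
  calc (W.card : ℤ) * (m * R ^ J) ≤ J * (m * R ^ J) := by
        apply mul_le_mul_of_nonneg_right this (by positivity)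
    _ = _ := by ring

lemma dvd_Tsum (W : Finset ℕ) (q : ℕ) (w : W → ℤ) (hw : ∀ i : W, (q : ℤ) ∣ ((i : ℕ) : ℤ) * w i - 1)
    (h : W → ℤ) (hd : (q : ℤ) ∣ ∑ i, h i * w i) : (q : ℤ) ∣ Tsum W h := by
  classical
  have h1 : (∏ j : W, ((j : ℕ) : ℤ)) * ∑ i, h i * w i - Tsum W h =
      ∑ i : W, (((i : ℕ) : ℤ) * w i - 1) * (h i * ∏ j ∈ univ.erase i, ((j : ℕ) : ℤ)) := by
    rw [Tsum, Finset.mul_sum, ← Finset.sum_sub_distrib]
    apply Finset.sum_congr rfl
    intro i _
    rw [← Finset.mul_prod_erase univ (fun j : W => ((j : ℕ) : ℤ)) (Finset.mem_univ i)]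
    ring
  have h2 : (q : ℤ) ∣ ∑ i : W, (((i : ℕ) : ℤ) * w i - 1) * (h i * ∏ j ∈ univ.erase i, ((j : ℕ) : ℤ)) := by
    apply Finset.dvd_sum
    intro i _
    exact Dvd.dvd.mul_right (hw i) _
  rw [← h1] at h2
  have h3 : Tsum W h = (∏ j : W, ((j : ℕ) : ℤ)) * ∑ i, h i * w i -
    ((∏ j : W, ((j : ℕ) : ℤ)) * ∑ i, h i * w i - Tsum W h) := by ring
  rw [h3]
  exact dvd_sub (Dvd.dvd.mul_left hd _) h2

/-- few prime divisors -/
lemma card_prime_dvd_le (J K R B : ℕ) (S : Finset ℕ) (hS : ∀ q ∈ S, q.Prime) (hSK : ∀ q ∈ S, R ≤ K * q)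
    (T : ℤ) (hT0 : T ≠ 0) (hTB : |T| ≤ (B * R ^ J : ℕ)) (hR : K ^ (J + 1) * B < R)
    (hd : ∀ q ∈ S, (q : ℤ) ∣ T) : S.card ≤ J := by
  classical
  by_contra hcon
  push Not at hcon
  obtain ⟨S', hS', hcard⟩ := Finset.exists_subset_card_eq (show J + 1 ≤ S.card by omega)
  have h1 : (∏ q ∈ S', q) ∣ T.natAbs := by
    apply Finset.prod_primes_dvd
    · intro q hq
      exact Nat.prime_iff.mp (hS q (hS' hq))
    · intro q hq
      exact Int.natCast_dvd.mp (hd q (hS' hq))
  have h2 : (∏ q ∈ S', q) ≤ B * R ^ J := by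
    refine (Nat.le_of_dvd (Int.natAbs_pos.mpr hT0) h1).trans ?_
    zify
    exact_mod_cast hTB
  have h3 : R ^ (J + 1) ≤ K ^ (J + 1) * ∏ q ∈ S', q := by
    rw [← hcard, ← Finset.prod_const, ← Finset.prod_const, ← Finset.prod_mul_distrib]
    apply Finset.prod_le_prod' 
    intro q hq
    exact hSK q (hS' hq)
  have h4 : R ^ J * R ≤ R ^ J * (K ^ (J + 1) * B) := by
    calc R ^ J * R = R ^ (J + 1) := by ring
      _ ≤ K ^ (J + 1) * ∏ q ∈ S', q := h3
      _ ≤ K ^ (J + 1) * (B * R ^ J) := Nat.mul_le_mul_left _ h2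
      _ = _ := by ring
  have hRpos : 0 < R := by omega
  have h5 := Nat.le_of_mul_le_mul_left h4 (by positivity)
  omega

/-- among sufficiently many candidates there is a non-exceptional prime. -/
lemma exists_nonexceptional (J K R m : ℕ) (W S : Finset ℕ) (hW : ∀ p ∈ W, p.Prime)
    (hmW : ∀ p ∈ W, m < p) (hWJ : W.card ≤ J) (hWR : ∀ p ∈ W, p ≤ R)
    (hS : ∀ q ∈ S, q.Prime) (hSK : ∀ q ∈ S, R ≤ K * q)
    (hR : K ^ (J + 1) * (J * m) < R) (hcard : (2 * m + 1) ^ J * J < S.card) :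
    ∃ q ∈ S, ∀ h : W → ℤ, (∀ i, |h i| ≤ m) → (q : ℤ) ∣ Tsum W h → h = 0 := by
  classical
  set H : Finset (W → ℤ) := (Fintype.piFinset (fun _ : W => Finset.Icc (-(m : ℤ)) m)).erase 0 with hH
  set E : Finset ℕ := H.biUnion (fun h => S.filter (fun q : ℕ => (q : ℤ) ∣ Tsum W h)) with hE
  have hmemH : ∀ h ∈ H, h ≠ 0 ∧ ∀ i, |h i| ≤ m := by
    intro h hh
    rw [hH, Finset.mem_erase, Fintype.mem_piFinset] at hh
    refine ⟨hh.1, fun i => ?_⟩
    have := hh.2 i
    rw [Finset.mem_Icc] at this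
    rw [abs_le]; exact this
  have hEcard : E.card ≤ (2 * m + 1) ^ J * J := by
    rw [hE]
    refine Finset.card_biUnion_le.trans ?_
    have h1 : ∀ h ∈ H, (S.filter (fun q : ℕ => (q : ℤ) ∣ Tsum W h)).card ≤ J := by
      intro h hh
      obtain ⟨h0, hb⟩ := hmemH h hh
      apply card_prime_dvd_le J K R (J * m) _ (fun q hq => hS q (Finset.mem_filter.mp hq).1)
        (fun q hq => hSK q (Finset.mem_filter.mp hq).1) (Tsum W h)
        (Tsum_ne_zero W hW m hmW h hb h0)
        (Tsum_abs_le W J m R (by omega) hWJ hWR h hb) hR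
        (fun q hq => (Finset.mem_filter.mp hq).2)
    refine (Finset.sum_le_card_nsmul _ _ _ h1).trans ?_
    rw [smul_eq_mul]
    apply Nat.mul_le_mul_right
    rw [hH]
    refine (Finset.card_erase_le).trans ?_
    rw [Fintype.card_piFinset]
    simp only [Int.card_Icc, Finset.prod_const, Finset.card_univ, Fintype.card_coe]
    have h2 : ((m : ℤ) + 1 - -(m : ℤ)).toNat = 2 * m + 1 := by omega
    rw [h2]
    exact Nat.pow_le_pow_right (by omega) hWJ
  have hlt : E.card < S.card := lt_of_le_of_lt hEcard hcard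
  obtain ⟨q, hqS, hqE⟩ := Finset.exists_mem_notMem_of_card_lt_card hlt
  refine ⟨q, hqS, ?_⟩
  intro h hb hd
  by_contra h0
  apply hqE
  rw [hE, Finset.mem_biUnion]
  refine ⟨h, ?_, ?_⟩
  · rw [hH, Finset.mem_erase, Fintype.mem_piFinset]
    refine ⟨h0, fun i => ?_⟩
    rw [Finset.mem_Icc]
    exact abs_le.mp (hb i)
  · rw [Finset.mem_filter]
    exact ⟨hqS, hd⟩

end exc

section step

lemma step (J m K : ℕ) (hK : 1 ≤ K)
    (hdeg : J * (Real.cos (Real.pi * (1 / (4 * K))) ^ 2) ^ m < (2 * m).choose m / 4 ^ m)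
    (W : Finset ℕ) (hW : ∀ p ∈ W, p.Prime) (hWJ : W.card ≤ J) (hWK : ∀ p ∈ W, 4 * K ≤ p)
    (q : ℕ) (hq : q.Prime) (hqW : q ∉ W)
    (hnd : ∀ h : W → ℤ, (∀ i, |h i| ≤ m) → (q : ℤ) ∣ Tsum W h → h = 0)
    (D : W → ℤ) :
    ∃ v : ℕ, v < q ∧ ∀ i : W, ∃ b c : ℤ, D i + v = b * q + c * (i : ℕ) ∧ 0 ≤ b ∧ K * b ≤ (i : ℕ) := by
  classical
  have hcop : ∀ i : W, ∃ a b : ℤ, a * (i : ℕ) + b * q = 1 := by
    intro i
    have h1 : Nat.Coprime (i : ℕ) q := by
      rw [Nat.coprime_primes (hW i i.2) hq]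
      intro h
      exact hqW (h ▸ i.2)
    exact Nat.Coprime.isCoprime h1
  choose w e hwe using hcop
  have hq0 : 0 < q := hq.pos
  have hKr : (1 : ℝ) ≤ K := by exact_mod_cast hK
  have hqr : (0 : ℝ) < q := by exact_mod_cast hq0
  obtain ⟨v, hvq, hv⟩ := kronecker q hq0 w J m (by rw [Fintype.card_coe]; exact hWJ)
    (by
      intro h hb hd
      apply hnd h hb
      apply dvd_Tsum W q w _ h hd
      intro i
      refine ⟨-e i, ?_⟩
      have := hwe i
      linear_combination this)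
    (1 / (4 * K)) (by positivity)
    (by
      rw [div_le_div_iff₀ (by positivity) (by norm_num)]
      linarith) hdeg
    (fun i => (D i : ℝ) / ((i : ℕ) * q) - D i * w i / q - 1 / (2 * K))
  refine ⟨v, hvq, fun i => ?_⟩
  obtain ⟨l, hl⟩ := hv i
  have hp : 4 * K ≤ (i : ℕ) := hWK i i.2
  have hp0 : 0 < (i : ℕ) := (hW i i.2).pos
  have hpr : (0 : ℝ) < ((i : ℕ) : ℝ) := by exact_mod_cast hp0
  refine ⟨(D i + v) * e i + (i : ℕ) * l, (D i + v) * w i - l * q, ?_, ?_, ?_⟩
  · have := hwe i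
    linear_combination (-(D i + v : ℤ)) * this
  all_goals
    have hreal : (((D i + v) * e i + (i : ℕ) * l : ℤ) : ℝ) = (i : ℕ) * (1 / (2 * K) + v / ((i : ℕ) * q) -
        ((v : ℝ) * w i / q - ((D i : ℝ) / ((i : ℕ) * q) - D i * w i / q - 1 / (2 * K)) - l)) := by
      have h1 : (e i : ℝ) = (1 - w i * (i : ℕ)) / q := by
        rw [eq_div_iff hqr.ne']
        have h2 : ((w i * (i : ℕ) + e i * q : ℤ) : ℝ) = 1 := by rw [hwe i]; simp
        push_cast at h2
        linarith
      push_cast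
      rw [h1]
      field_simp
      ring
    have hv0 : (0 : ℝ) ≤ v / ((i : ℕ) * q) := by positivity
    have hv1 : (v : ℝ) / ((i : ℕ) * q) ≤ 1 / (4 * K) := by
      rw [div_le_div_iff₀ (by positivity) (by positivity)]
      have h1 : (v : ℝ) ≤ q := by exact_mod_cast hvq.le
      have h2 : (4 * K : ℝ) ≤ (i : ℕ) := by exact_mod_cast hp
      nlinarith
    rw [abs_le] at hl
    have e1 : (1 : ℝ) / (2 * K) = 2 * (1 / (4 * K)) := by field_simp; ring
    have e2 : (0 : ℝ) < 1 / (4 * K) := by positivity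
  · have h3 : (0 : ℝ) ≤ (((D i + v) * e i + (i : ℕ) * l : ℤ) : ℝ) := by
      rw [hreal]
      apply mul_nonneg hpr.le
      linarith
    exact_mod_cast h3
  · have h3 : (K : ℝ) * (((D i + v) * e i + (i : ℕ) * l : ℤ) : ℝ) ≤ (i : ℕ) := by
      rw [hreal]
      have h4 : (1 / (2 * K) + v / ((i : ℕ) * q) -
        ((v : ℝ) * w i / q - ((D i : ℝ) / ((i : ℕ) * q) - D i * w i / q - 1 / (2 * K)) - l)) ≤ 1 / K := by
        have e3 : (1 : ℝ) / K = 4 * (1 / (4 * K)) := by field_simp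
        linarith
      calc (K : ℝ) * ((i : ℕ) * (1 / (2 * K) + v / ((i : ℕ) * q) -
        ((v : ℝ) * w i / q - ((D i : ℝ) / ((i : ℕ) * q) - D i * w i / q - 1 / (2 * K)) - l)))
          ≤ (K : ℝ) * ((i : ℕ) * (1 / K)) := by
            apply mul_le_mul_of_nonneg_left _ (by positivity)
            apply mul_le_mul_of_nonneg_left h4 hpr.le
        _ = (i : ℕ) := by field_simp
    exact_mod_cast h3

end step

section greedy

lemma mem_prog {n d : ℕ} {x : ℤ} (hx : x ∈ prog n d) :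
    ∃ a : ℕ, 1 ≤ a ∧ a * d ≤ n ∧ x = a * d := by
  rw [prog, Finset.mem_image] at hx
  obtain ⟨a, ha, rfl⟩ := hx
  rw [Finset.mem_Icc] at ha
  refine ⟨a, ha.1, ?_, rfl⟩
  exact (Nat.mul_le_mul_right d ha.2).trans (Nat.div_mul_le_self n d)

lemma mem_prog_of {n d a : ℕ} (hd : 0 < d) (ha : 1 ≤ a) (han : a * d ≤ n) :
    ((a : ℤ) * d) ∈ prog n d := by
  rw [prog, Finset.mem_image]
  refine ⟨a, ?_, rfl⟩
  rw [Finset.mem_Icc]
  exact ⟨ha, (Nat.le_div_iff_mul_le hd).mpr han⟩

lemma prog_bounds {n d : ℕ} {x : ℤ} (hx : x ∈ prog n d) : 1 ≤ x ∧ x ≤ n := by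
  rw [prog, Finset.mem_image] at hx
  obtain ⟨a, ha, rfl⟩ := hx
  rw [Finset.mem_Icc] at ha
  have hd : 0 < d := by
    rcases Nat.eq_zero_or_pos d with h | h
    · subst h
      simp at ha
      omega
    · exact h
  constructor
  · have : 1 ≤ a * d := Nat.mul_pos (by omega) hd
    exact_mod_cast this
  · have : a * d ≤ n := (Nat.mul_le_mul_right d ha.2).trans (Nat.div_mul_le_self n d)
    exact_mod_cast this

/-- the family fits with starting points `s d ≥ 0` and `s d + n ≤ L` -/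
def FitsIn (n : ℕ) (D : Finset ℕ) (L : ℕ) : Prop :=
  ∃ s : ℕ → ℤ, (∀ d ∈ D, 0 ≤ s d ∧ s d + n ≤ L) ∧
    ∀ d ∈ D, ∀ e ∈ D, d ≠ e → ∀ a ∈ prog n d, ∀ b ∈ prog n e, s d + a ≠ s e + b

lemma FitsIn.mono {n : ℕ} {D D' : Finset ℕ} {L L' : ℕ} (h : FitsIn n D L) (hD : D' ⊆ D) (hL : L ≤ L') :
    FitsIn n D' L' := by
  obtain ⟨s, h1, h2⟩ := h
  refine ⟨s, fun d hd => ⟨(h1 d (hD hd)).1, (h1 d (hD hd)).2.trans (by exact_mod_cast hL)⟩, ?_⟩
  intro d hd e he
  exact h2 d (hD hd) e (hD he)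

lemma FitsIn.union {n : ℕ} {D₁ D₂ : Finset ℕ} {L₁ L₂ : ℕ} (h₁ : FitsIn n D₁ L₁) (h₂ : FitsIn n D₂ L₂) :
    FitsIn n (D₁ ∪ D₂) (L₁ + L₂) := by
  classical
  obtain ⟨s₁, h11, h12⟩ := h₁
  obtain ⟨s₂, h21, h22⟩ := h₂
  refine ⟨fun d => if d ∈ D₁ then s₁ d else L₁ + s₂ d, ?_, ?_⟩
  · intro d hd
    by_cases h : d ∈ D₁
    · simp only [if_pos h]
      obtain ⟨ha, hb⟩ := h11 d h
      push_cast
      exact ⟨ha, by omega⟩
    · simp only [if_neg h]
      have hd2 : d ∈ D₂ := by
        rcases Finset.mem_union.mp hd with h' | h'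
        · exact absurd h' h
        · exact h'
      obtain ⟨ha, hb⟩ := h21 d hd2
      push_cast
      exact ⟨by omega, by omega⟩
  · intro d hd e he hde a ha b hb
    have ha' := prog_bounds ha
    have hb' := prog_bounds hb
    by_cases hd1 : d ∈ D₁ <;> by_cases he1 : e ∈ D₁
    · simp only [if_pos hd1, if_pos he1]
      exact h12 d hd1 e he1 hde a ha b hb
    · simp only [if_pos hd1, if_neg he1]
      have he2 : e ∈ D₂ := by
        rcases Finset.mem_union.mp he with h' | h'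
        · exact absurd h' he1
        · exact h'
      obtain ⟨h3, h4⟩ := h11 d hd1
      obtain ⟨h5, h6⟩ := h21 e he2
      omega
    · simp only [if_neg hd1, if_pos he1]
      have hd2 : d ∈ D₂ := by
        rcases Finset.mem_union.mp hd with h' | h'
        · exact absurd h' hd1
        · exact h'
      obtain ⟨h3, h4⟩ := h11 e he1
      obtain ⟨h5, h6⟩ := h21 d hd2
      omega
    · simp only [if_neg hd1, if_neg he1]
      have he2 : e ∈ D₂ := by
        rcases Finset.mem_union.mp he with h' | h'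
        · exact absurd h' he1
        · exact h'
      have hd2 : d ∈ D₂ := by
        rcases Finset.mem_union.mp hd with h' | h'
        · exact absurd h' hd1
        · exact h'
      have := h22 d hd2 e he2 hde a ha b hb
      intro h
      apply this
      linarith

lemma fitsIn_card (n : ℕ) (D : Finset ℕ) : FitsIn n D (D.card * n) := by
  classical
  induction D using Finset.induction_on with
  | empty => exact ⟨fun _ => 0, by simp, by simp⟩
  | insert a D ha ih =>
    have h1 : FitsIn n {a} n := by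
      refine ⟨fun _ => 0, ?_, ?_⟩
      · intro d _; simp
      · intro d hd e he hde
        rw [Finset.mem_singleton] at hd he
        exact absurd (hd.trans he.symm) hde
    have h2 := h1.union ih
    rw [Finset.card_insert_of_notMem ha]
    apply h2.mono
    · rw [Finset.insert_eq]
    · apply le_of_eq; ring

lemma noncollision (n K k Λ p q : ℕ) (hp : p.Prime) (hq : q.Prime) (hpq : p ≠ q)
    (hpn : p * p ≤ n) (hqn : q * q ≤ n)
    (hpk : k ^ 2 * n < K ^ 2 * p ^ 2) (hqk : k ^ 2 * n < K ^ 2 * q ^ 2)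
    (hΛ : (K ^ 2 + K) * n ≤ K ^ 2 * Λ + k ^ 2 * n)
    (D : ℤ) (hD : (Λ : ℤ) ≤ D) (b₀ c₀ : ℤ) (hDb : D = b₀ * q + c₀ * p) (hb0 : 0 ≤ b₀) (hbK : K * b₀ ≤ p)
    (a b : ℕ) (hap : a * p ≤ n) (hb : 1 ≤ b) : (a * p : ℤ) ≠ D + b * q := by
  intro h
  have hdvd : (p : ℤ) ∣ (b₀ + b) * q := by
    refine ⟨a - c₀, ?_⟩
    rw [hDb] at h
    linear_combination -h
  have hpp : Prime (p : ℤ) := Nat.prime_iff_prime_int.mp hp
  have hdvd2 : (p : ℤ) ∣ b₀ + b := by
    rcases hpp.dvd_or_dvd hdvd with h1 | h1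
    · exact h1
    · exfalso
      apply hpq
      exact (Nat.prime_dvd_prime_iff_eq hp hq).mp (by exact_mod_cast h1)
  have hle : (p : ℤ) ≤ b₀ + b := Int.le_of_dvd (by omega) hdvd2
  have hpq_n : p * q ≤ n := by nlinarith [Nat.mul_self_le_mul_self_iff.mpr (le_refl p), sq_nonneg ((p : ℤ) - q)]
  have hkey : k ^ 2 * n < K ^ 2 * (p * q) := by
    have h1 : (k ^ 2 * n) * (k ^ 2 * n) < (K ^ 2 * p ^ 2) * (K ^ 2 * q ^ 2) :=
      Nat.mul_lt_mul'' hpk hqk
    have h2 : (K ^ 2 * p ^ 2) * (K ^ 2 * q ^ 2) = (K ^ 2 * (p * q)) * (K ^ 2 * (p * q)) := by ring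
    rw [h2] at h1
    exact Nat.mul_self_lt_mul_self_iff.mp h1
  zify at hpq_n hkey hΛ hap
  have hq0 : (0 : ℤ) < q := by exact_mod_cast hq.pos
  have h1 : (K : ℤ) ^ 2 * (p * q) ≤ K ^ 2 * ((b₀ + b) * q) := by
    apply mul_le_mul_of_nonneg_left _ (by positivity)
    exact mul_le_mul_of_nonneg_right hle hq0.le
  have h2 : (K : ℤ) ^ 2 * (b₀ * q) ≤ K * n := by
    calc (K : ℤ) ^ 2 * (b₀ * q) = K * ((K * b₀) * q) := by ring
      _ ≤ K * (p * q) := by
          apply mul_le_mul_of_nonneg_left _ (by positivity)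
          exact mul_le_mul_of_nonneg_right hbK hq0.le
      _ ≤ K * n := mul_le_mul_of_nonneg_left hpq_n (by positivity)
  have h3 : (K : ℤ) ^ 2 * (b * q) ≤ K ^ 2 * n - K ^ 2 * Λ := by
    have h4 : (b : ℤ) * q ≤ n - Λ := by linarith
    calc (K : ℤ) ^ 2 * (b * q) ≤ K ^ 2 * (n - Λ) := mul_le_mul_of_nonneg_left h4 (by positivity)
      _ = _ := by ring
  nlinarith

/-- numerical data for one class -/
structure ClassData (n K k m R Λ : ℕ) (S : Finset ℕ) : Prop where
  hK : 1 ≤ K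
  hkK : k < K
  hdeg : K * (Real.cos (Real.pi * (1 / (4 * K))) ^ 2) ^ m < (2 * m).choose m / 4 ^ m
  hS : ∀ p ∈ S, p.Prime
  hmS : ∀ p ∈ S, m < p
  hKS : ∀ p ∈ S, 4 * K ≤ p
  hSR : ∀ p ∈ S, p ≤ R
  hSn : ∀ p ∈ S, p * p ≤ n
  hSK : ∀ p ∈ S, R ≤ K * p
  hSk : ∀ p ∈ S, k ^ 2 * n < K ^ 2 * p ^ 2
  hR : K ^ (K + 1) * (K * m) < R
  hΛ : (K ^ 2 + K) * n ≤ K ^ 2 * Λ + k ^ 2 * n

lemma ClassData.n_le {n K k m R Λ : ℕ} {S : Finset ℕ} (h : ClassData n K k m R Λ S) : n ≤ K * Λ := by
  have h1 := h.hΛ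
  have h2 := h.hkK
  have h3 := h.hK
  have h4 : k ^ 2 * n ≤ K ^ 2 * n := by
    apply Nat.mul_le_mul_right
    exact Nat.pow_le_pow_left h2.le 2
  have h5 : K * n ≤ K * (K * Λ) := by nlinarith
  exact Nat.le_of_mul_le_mul_left h5 (by omega)

lemma greedy {n K k m R Λ : ℕ} {S : Finset ℕ} (h : ClassData n K k m R Λ S) (j : ℕ)
    (hj : j + (2 * m + 1) ^ K * K ≤ S.card) :
    ∃ (T : Finset ℕ) (s : ℕ → ℤ) (r : ℕ → ℕ) (A : ℤ), T ⊆ S ∧ T.card = j ∧ (∀ d ∈ T, r d < j) ∧
      (Set.InjOn r T) ∧ (∀ d ∈ T, 0 ≤ s d) ∧ 0 ≤ A ∧ (∀ d ∈ T, s d + ((j : ℤ) - r d) * Λ ≤ A) ∧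
      A ≤ j * (Λ + R) ∧
      (∀ d ∈ T, ∀ e ∈ T, d ≠ e → ∀ a ∈ prog n d, ∀ b ∈ prog n e, s d + a ≠ s e + b) := by
  classical
  induction j with
  | zero =>
    refine ⟨∅, fun _ => 0, fun _ => 0, 0, ?_⟩
    simp
  | succ j ih =>
    obtain ⟨T, s, r, A, hTS, hTc, hrj, hrinj, hs0, hA0, hsA, hAj, hdisj⟩ := ih (by omega)
    set W : Finset ℕ := T.filter (fun d => j ≤ r d + K) with hW
    have hWT : W ⊆ T := Finset.filter_subset _ _
    have hWJ : W.card ≤ K := by
      have h1 : W.card = (W.image r).card := by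
        rw [Finset.card_image_of_injOn]
        intro x hx y hy hxy
        exact hrinj (hWT hx) (hWT hy) hxy
      have h2 : W.image r ⊆ Finset.Ico (j - K) j := by
        intro x hx
        rw [Finset.mem_image] at hx
        obtain ⟨d, hd, rfl⟩ := hx
        rw [hW, Finset.mem_filter] at hd
        rw [Finset.mem_Ico]
        have := hrj d hd.1
        omega
      rw [h1]
      refine (Finset.card_le_card h2).trans ?_
      rw [Nat.card_Ico]
      omega
    obtain ⟨q, hqS, hqne⟩ := exists_nonexceptional K K R m W (S \ T)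
      (fun p hp => h.hS p (hTS (hWT hp))) (fun p hp => h.hmS p (hTS (hWT hp))) hWJ
      (fun p hp => h.hSR p (hTS (hWT hp))) (fun q hq => h.hS q (Finset.mem_sdiff.mp hq).1)
      (fun q hq => h.hSK q (Finset.mem_sdiff.mp hq).1) h.hR
      (by
        have h1 := Finset.card_sdiff_add_card_eq_card hTS
        omega)
    rw [Finset.mem_sdiff] at hqS
    obtain ⟨hqS, hqT⟩ := hqS
    have hqp := h.hS q hqS
    obtain ⟨v, hvq, hv⟩ := step K m K h.hK h.hdeg W (fun p hp => h.hS p (hTS (hWT hp))) hWJ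
      (fun p hp => h.hKS p (hTS (hWT hp))) q hqp (fun hqW => hqT (hWT hqW)) hqne
      (fun i => A - s i)
    have hqR : q ≤ R := h.hSR q hqS
    have hne : ∀ d ∈ T, d ≠ q := fun d hd hdq => hqT (hdq ▸ hd)
    refine ⟨insert q T, Function.update s q (A + v), Function.update r q j, A + v + Λ, ?_, ?_, ?_, ?_, ?_, ?_, ?_, ?_, ?_⟩
    · exact Finset.insert_subset hqS hTS
    · rw [Finset.card_insert_of_notMem hqT, hTc]
    · intro d hd
      rcases Finset.mem_insert.mp hd with rfl | hd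
      · simp
      · rw [Function.update_of_ne (hne d hd)]
        have := hrj d hd
        omega
    · intro x hx y hy hxy
      rw [Finset.coe_insert] at hx hy
      rcases hx with rfl | hx <;> rcases hy with rfl | hy
      · rfl
      · rw [Function.update_self, Function.update_of_ne (hne y hy)] at hxy
        have := hrj y hy
        omega
      · rw [Function.update_self, Function.update_of_ne (hne x hx)] at hxy
        have := hrj x hx
        omega
      · rw [Function.update_of_ne (hne x hx), Function.update_of_ne (hne y hy)] at hxy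
        exact hrinj hx hy hxy
    · intro d hd
      rcases Finset.mem_insert.mp hd with rfl | hd
      · rw [Function.update_self]; positivity
      · rw [Function.update_of_ne (hne d hd)]
        exact hs0 d hd
    · positivity
    · intro d hd
      rcases Finset.mem_insert.mp hd with rfl | hd
      · rw [Function.update_self, Function.update_self]
        push_cast
        linarith
      · rw [Function.update_of_ne (hne d hd), Function.update_of_ne (hne d hd)]
        have h1 := hsA d hd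
        push_cast
        have h2 : (0 : ℤ) ≤ v := by positivity
        linarith
    · have h1 : (v : ℤ) ≤ R := by exact_mod_cast (hvq.le.trans hqR)
      push_cast
      linarith
    · -- the main disjointness
      have hmain : ∀ d ∈ T, ∀ a ∈ prog n d, ∀ b ∈ prog n q, s d + a ≠ A + v + b := by
        intro d hd a ha b hb
        have hDge : ((j : ℤ) - r d) * Λ ≤ A - s d := by
          have := hsA d hd
          linarith
        have hrd := hrj d hd
        by_cases hdW : d ∈ W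
        · obtain ⟨b₀, c₀, hbc, hb0, hbK⟩ := hv ⟨d, hdW⟩
          simp only at hbc hbK
          obtain ⟨a', ha1, ha2, rfl⟩ := mem_prog ha
          obtain ⟨b', hb1, hb2, rfl⟩ := mem_prog hb
          have hdS := hTS hd
          have := noncollision n K k Λ d q (h.hS d hdS) hqp (hne d hd) (h.hSn d hdS) (h.hSn q hqS)
            (h.hSk d hdS) (h.hSk q hqS) h.hΛ (A - s d + v) (by
              have h1 : (1 : ℤ) ≤ (j : ℤ) - r d := by omega
              have h2 : (Λ : ℤ) ≤ ((j : ℤ) - r d) * Λ := by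
                nlinarith [(Nat.cast_nonneg Λ : (0 : ℤ) ≤ Λ)]
              have h3 : (0 : ℤ) ≤ v := by positivity
              linarith) b₀ c₀ hbc hb0 hbK a' b' ha2 hb1
          intro heq
          apply this
          linarith
        · have hfar : r d + K < j := by
            by_contra hcon
            apply hdW
            rw [hW, Finset.mem_filter]
            exact ⟨hd, by omega⟩
          have ha' := prog_bounds ha
          have hb' := prog_bounds hb
          have h1 : (K : ℤ) * Λ ≤ ((j : ℤ) - r d) * Λ := by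
            apply mul_le_mul_of_nonneg_right _ (by positivity)
            omega
          have h2 : (n : ℤ) ≤ K * Λ := by exact_mod_cast h.n_le
          have h3 : (0 : ℤ) ≤ v := by positivity
          intro heq
          linarith [ha'.2, hb'.1]
      intro d hd e he hde a ha b hb
      rcases Finset.mem_insert.mp hd with hd' | hd'
      · rcases Finset.mem_insert.mp he with he' | he'
        · exact absurd (hd'.trans he'.symm) hde
        · subst hd'
          rw [Function.update_self, Function.update_of_ne (hne e he')]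
          exact (hmain e he' b hb a ha).symm
      · rcases Finset.mem_insert.mp he with he' | he'
        · subst he'
          rw [Function.update_self, Function.update_of_ne (hne d hd')]
          exact hmain d hd' a ha b hb
        · rw [Function.update_of_ne (hne d hd'), Function.update_of_ne (hne e he')]
          exact hdisj d hd' e he' hde a ha b hb

lemma class_fits {n K k m R Λ : ℕ} {S : Finset ℕ} (h : ClassData n K k m R Λ S) :
    FitsIn n S (S.card * (Λ + R) + ((2 * m + 1) ^ K * K + 1) * n) := by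
  classical
  set C := (2 * m + 1) ^ K * K with hC
  by_cases hc : S.card ≤ C
  · apply (fitsIn_card n S).mono (le_refl _)
    calc S.card * n ≤ C * n := Nat.mul_le_mul_right n hc
      _ ≤ _ := by nlinarith
  · push Not at hc
    obtain ⟨T, s, r, A, hTS, hTc, hrj, hrinj, hs0, hA0, hsA, hAj, hdisj⟩ := greedy h (S.card - C) (by omega)
    have h1 : FitsIn n T ((S.card - C) * (Λ + R) + n) := by
      refine ⟨s, fun d hd => ⟨hs0 d hd, ?_⟩, hdisj⟩
      have h2 := hsA d hd
      have h3 := hrj d hd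
      have h4 : (0 : ℤ) ≤ (((S.card - C : ℕ) : ℤ) - r d) * Λ := by
        apply mul_nonneg _ (by positivity)
        omega
      push_cast
      linarith
    have h2 := fitsIn_card n (S \ T)
    have h3 := h1.union h2
    have h4 := Finset.card_sdiff_add_card_eq_card hTS
    apply h3.mono
    · rw [Finset.union_sdiff_of_subset hTS]
    · have h5 : (S \ T).card = C := by omega
      rw [h5]
      have h6 : (S.card - C) * (Λ + R) ≤ S.card * (Λ + R) := Nat.mul_le_mul_right _ (by omega)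
      nlinarith

end greedy

section lower

lemma separation (n p q : ℕ) (hp : p.Prime) (hq : q.Prime) (hpq : p ≠ q) (hpqn : p * q ≤ n) (s t : ℤ)
    (hst : s ≤ t) (hdisj : ∀ a ∈ prog n p, ∀ b ∈ prog n q, s + a ≠ t + b) :
    (n : ℤ) - p * q < t - s := by
  by_contra hcon
  push Not at hcon
  have hcop : Nat.Coprime q p := (Nat.coprime_primes hq hp).mpr (Ne.symm hpq)
  obtain ⟨u, w, huw⟩ := Nat.Coprime.isCoprime hcop
  have hp0 : (0 : ℤ) < p := by exact_mod_cast hp.pos
  have hq0 : (0 : ℤ) < q := by exact_mod_cast hq.pos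
  set b : ℤ := (-(t - s) * u - 1) % p + 1 with hb
  have hb1 : 1 ≤ b := by
    have := Int.emod_nonneg (-(t - s) * u - 1) hp0.ne'
    omega
  have hbp : b ≤ p := by
    have := Int.emod_lt_of_pos (-(t - s) * u - 1) hp0
    omega
  have hdvd : (p : ℤ) ∣ (t - s) + b * q := by
    have h1 : (p : ℤ) ∣ b - (-(t - s) * u) := by
      have := Int.emod_add_mul_ediv (-(t - s) * u - 1) p
      refine ⟨-((-(t - s) * u - 1) / p), ?_⟩
      linarith
    obtain ⟨c, hc⟩ := h1
    refine ⟨c * q + (t - s) * w, ?_⟩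
    linear_combination (q : ℤ) * hc - (t - s) * huw
  obtain ⟨a, ha⟩ := hdvd
  have hapos : 0 < a := by
    have h1 : 0 < (p : ℤ) * a := by
      rw [← ha]
      have : 0 < b * q := by positivity
      linarith
    exact pos_of_mul_pos_right h1 hp0.le
  have hle : (p : ℤ) * a ≤ n := by
    rw [← ha]
    have : b * q ≤ p * q := mul_le_mul_of_nonneg_right hbp hq0.le
    linarith
  obtain ⟨a', rfl⟩ := Int.eq_ofNat_of_zero_le hapos.le
  obtain ⟨b', hb'⟩ := Int.eq_ofNat_of_zero_le (show 0 ≤ b by omega)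
  rw [hb'] at ha hb1 hbp
  have ha2 : a' * p ≤ n := by
    zify; linarith
  have hb2 : b' * q ≤ n := by
    have : b' ≤ p := by exact_mod_cast hbp
    exact (Nat.mul_le_mul_right q this).trans hpqn
  apply hdisj _ (mem_prog_of hp.pos (by omega) ha2) _ (mem_prog_of hq.pos (by omega) hb2)
  linarith

lemma lower_bound (n R : ℕ) (D : Finset ℕ) (hD : ∀ p ∈ D, p.Prime) (hDn : ∀ p ∈ D, p * p ≤ n)
    (hDR : ∀ p ∈ D, p ≤ R) (m : ℕ) (h : Packs n D m) :
    ∑ p ∈ D, ((n : ℤ) - p ^ 2) ≤ m + n + R := by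
  classical
  obtain ⟨s, hs1, hs2⟩ := h
  have hmem : ∀ p ∈ D, ((1 : ℕ) : ℤ) * p ∈ prog n p := by
    intro p hp
    apply mem_prog_of (hD p hp).pos (le_refl 1)
    have h1 := hDn p hp
    have h2 := (hD p hp).pos
    nlinarith
  have key : ∀ T : Finset ℕ, T ⊆ D → ∀ q ∈ T, (∀ x ∈ T, s x ≤ s q) →
      2 * (1 - (R : ℤ)) + 2 * ∑ p ∈ T, ((n : ℤ) - p ^ 2) - (n - q ^ 2) - n ≤ 2 * s q := by
    intro T
    induction T using Finset.induction_on_max_value s with
    | empty => intro _ q hq; simp at hq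
    | insert a T haT hmax ih =>
      intro hTD q hq hqmax
      have haD : a ∈ D := hTD (Finset.mem_insert_self a T)
      have hTD' : T ⊆ D := fun x hx => hTD (Finset.mem_insert_of_mem hx)
      have hsep : ∀ x ∈ T, (n : ℤ) - x * a < s a - s x := by
        intro x hx
        apply separation n x a (hD x (hTD' hx)) (hD a haD) (fun h => haT (h ▸ hx)) _ _ _ (hmax x hx)
          (hs2 x (hTD' hx) a haD (fun h => haT (h ▸ hx)))
        have h1 := hDn x (hTD' hx)
        have h2 := hDn a haD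
        nlinarith [sq_nonneg ((x : ℤ) - a)]
      have hxa : ∀ x ∈ T, (x : ℤ) * a ≤ n := by
        intro x hx
        have h1 := hDn x (hTD' hx)
        have h2 := hDn a haD
        zify at h1 h2
        nlinarith [sq_nonneg ((x : ℤ) - a)]
      have hqa : q = a := by
        rcases Finset.mem_insert.mp hq with h1 | h1
        · exact h1
        · exfalso
          have h2 := hsep q h1
          have h3 := hqmax a (Finset.mem_insert_self a T)
          have h4 := hxa q h1
          linarith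
      subst hqa
      rw [Finset.sum_insert haT]
      rcases T.eq_empty_or_nonempty with hT | hT
      · subst hT
        simp only [Finset.sum_empty, add_zero]
        have h1 := hs1 q haD _ (hmem q haD)
        rw [Finset.mem_Icc] at h1
        have h2 : (q : ℤ) ≤ R := by exact_mod_cast hDR q haD
        have h3 : (0 : ℤ) ≤ (q : ℤ) ^ 2 := by positivity
        push_cast at h1
        linarith [h1.1]
      · obtain ⟨y, hy, hymax⟩ := Finset.exists_max_image T s hT
        have h1 := ih hTD' y hy hymax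
        have h2 := hsep y hy
        have h3 : 2 * ((y : ℤ) * q) ≤ y ^ 2 + q ^ 2 := by nlinarith [sq_nonneg ((y : ℤ) - q)]
        linarith
  rcases D.eq_empty_or_nonempty with h0 | h0
  · subst h0; simp; positivity
  · obtain ⟨y, hy, hymax⟩ := Finset.exists_max_image D s h0
    have h1 := key D (Finset.Subset.refl D) y hy hymax
    have h2 := hs1 y hy _ (hmem y hy)
    rw [Finset.mem_Icc] at h2
    have h3 : (0 : ℤ) ≤ (y : ℤ) ^ 2 := by positivity
    have h4 : (0 : ℤ) ≤ (y : ℤ) := by positivity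
    push_cast at h2
    linarith [h2.2]

end lower

section asym

lemma mem_P {n p : ℕ} : p ∈ primesUpToSqrt n ↔ p.Prime ∧ p * p ≤ n := by
  rw [primesUpToSqrt, Finset.mem_filter, Finset.mem_Icc, Nat.le_sqrt]
  constructor
  · rintro ⟨⟨h1, h2⟩, h3⟩
    exact ⟨h3, h2⟩
  · rintro ⟨h1, h2⟩
    exact ⟨⟨h1.pos, h2⟩, h1⟩

/-- class `k` of `K` -/
def cls (K k n : ℕ) : Finset ℕ :=
  (primesUpToSqrt n).filter (fun p => k ^ 2 * n < K ^ 2 * p ^ 2 ∧ K ^ 2 * p ^ 2 ≤ (k + 1) ^ 2 * n)

lemma cls_cover (K n : ℕ) (hK : 1 ≤ K) : primesUpToSqrt n = (range K).biUnion (fun k => cls K k n) := by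
  classical
  ext p
  rw [Finset.mem_biUnion]
  constructor
  · intro hp
    have hp' := mem_P.mp hp
    have hex : ∃ j : ℕ, K ^ 2 * p ^ 2 ≤ j ^ 2 * n := by
      refine ⟨K, Nat.mul_le_mul_left _ ?_⟩
      rw [sq]; exact hp'.2
    set j := Nat.find hex with hj
    have hj1 : K ^ 2 * p ^ 2 ≤ j ^ 2 * n := Nat.find_spec hex
    have hj2 : j ≤ K := Nat.find_min' hex (by
      apply Nat.mul_le_mul_left _
      rw [sq]; exact hp'.2)
    have hj0 : j ≠ 0 := by
      intro h0
      rw [h0] at hj1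
      have : 0 < K ^ 2 * p ^ 2 := by
        have := hp'.1.pos
        positivity
      have h3 : (0 : ℕ) ^ 2 * n = 0 := by ring
      omega
    obtain ⟨k, hk⟩ := Nat.exists_eq_succ_of_ne_zero hj0
    refine ⟨k, ?_, ?_⟩
    · rw [Finset.mem_range]; omega
    · rw [cls, Finset.mem_filter]
      refine ⟨hp, ?_, ?_⟩
      · have := Nat.find_min hex (show k < Nat.find hex by omega)
        omega
      · rw [hk] at hj1
        exact hj1
  · rintro ⟨k, _, hk⟩
    exact (Finset.mem_filter.mp hk).1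

lemma cls_disj (K n : ℕ) : ((range K : Finset ℕ) : Set ℕ).PairwiseDisjoint (fun k => cls K k n) := by
  have h : ∀ k k' : ℕ, k < k' → Disjoint (cls K k n) (cls K k' n) := by
    intro k k' hkk
    rw [Finset.disjoint_left]
    intro p hp hp'
    rw [cls, Finset.mem_filter] at hp hp'
    have h1 : (k + 1) ^ 2 * n ≤ k' ^ 2 * n := by
      apply Nat.mul_le_mul_right
      exact Nat.pow_le_pow_left hkk 2
    omega
  intro k _ k' _ hkk
  rcases lt_or_gt_of_ne hkk with h1 | h1
  · exact h k k' h1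
  · exact (h k' k h1).symm

lemma le_floor_iff (K j n p : ℕ) (hK : 1 ≤ K) :
    p ≤ ⌊(j : ℝ) / K * √n⌋₊ ↔ K ^ 2 * p ^ 2 ≤ j ^ 2 * n := by
  have hK0 : (0 : ℝ) < K := by exact_mod_cast hK
  rw [Nat.le_floor_iff (by positivity)]
  have h1 : (p : ℝ) ≤ (j : ℝ) / K * √n ↔ K * p ≤ j * √n := by
    rw [div_mul_eq_mul_div, le_div_iff₀ hK0, mul_comm (p : ℝ)]
  rw [h1]
  rw [← Real.sqrt_sq (show (0 : ℝ) ≤ K * p by positivity)]
  have h2 : (j : ℝ) * √n = √((j : ℝ) ^ 2 * n) := by
    rw [Real.sqrt_mul (by positivity), Real.sqrt_sq (by positivity)]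
  rw [h2, Real.sqrt_le_sqrt_iff (by positivity), mul_pow]
  exact_mod_cast Iff.rfl

lemma card_cls (K k n : ℕ) (hK : 1 ≤ K) (hk : k < K) :
    (cls K k n).card + Nat.primeCounting ⌊(k : ℝ) / K * √n⌋₊ =
      Nat.primeCounting ⌊((k + 1 : ℕ) : ℝ) / K * √n⌋₊ := by
  classical
  have hpi : ∀ N : ℕ, Nat.primeCounting N = ((range (N + 1)).filter Nat.Prime).card := by
    intro N
    rw [Nat.primeCounting, Nat.primeCounting', Nat.count_eq_card_filter_range]
  rw [hpi, hpi, ← Finset.card_union_of_disjoint]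
  · congr 1
    ext p
    simp only [Finset.mem_union, Finset.mem_filter, cls, Finset.mem_range, Nat.lt_succ_iff, mem_P,
      le_floor_iff K _ n p hK]
    constructor
    · rintro (⟨⟨h1, h2⟩, h3, h4⟩ | ⟨h1, h2⟩)
      · exact ⟨h4, h1⟩
      · refine ⟨h1.trans ?_, h2⟩
        apply Nat.mul_le_mul_right
        exact Nat.pow_le_pow_left (by omega) 2
    · rintro ⟨h1, h2⟩
      by_cases h3 : K ^ 2 * p ^ 2 ≤ k ^ 2 * n
      · right; exact ⟨h3, h2⟩
      · left
        refine ⟨⟨h2, ?_⟩, by omega, h1⟩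
        have h4 : K ^ 2 * p ^ 2 ≤ K ^ 2 * n := h1.trans (by
          apply Nat.mul_le_mul_right
          exact Nat.pow_le_pow_left (by omega) 2)
        have h5 := Nat.le_of_mul_le_mul_left h4 (by positivity)
        rw [← sq]; exact h5
  · rw [Finset.disjoint_left]
    intro p hp hp'
    rw [cls, Finset.mem_filter] at hp
    rw [Finset.mem_filter, Finset.mem_range, Nat.lt_succ_iff, le_floor_iff K _ n p hK] at hp'
    omega

lemma pi_tendsto (y : ℝ) (hy : 0 ≤ y) :
    Tendsto (fun n : ℕ => (Nat.primeCounting ⌊y * √n⌋₊ : ℝ) * (Real.log n / √n)) atTop (𝓝 (2 * y)) := by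
  rcases hy.eq_or_lt with h0 | h0
  · subst h0
    simp
  have hsq : Tendsto (fun n : ℕ => √(n : ℝ)) atTop atTop :=
    Real.tendsto_sqrt_atTop.comp tendsto_natCast_atTop_atTop
  have hx : Tendsto (fun n : ℕ => y * √(n : ℝ)) atTop atTop := hsq.const_mul_atTop h0
  have h1 := Pool.Agent.H62.PNT.primeCounting_tendsto.comp hx
  have hlog : Tendsto (fun n : ℕ => Real.log (n : ℝ)) atTop atTop :=
    Real.tendsto_log_atTop.comp tendsto_natCast_atTop_atTop
  have h2 : Tendsto (fun n : ℕ => (Real.log y * (Real.log n)⁻¹ + 1 / 2)⁻¹) atTop (𝓝 2) := by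
    have h3 : Tendsto (fun n : ℕ => Real.log y * (Real.log n)⁻¹ + 1 / 2) atTop
        (𝓝 (Real.log y * 0 + 1 / 2)) :=
      ((tendsto_inv_atTop_zero.comp hlog).const_mul _).add_const _
    have h4 := h3.inv₀ (by norm_num)
    simpa using h4
  have h3 := (h1.mul h2).mul_const y
  rw [one_mul] at h3
  apply h3.congr'
  filter_upwards [eventually_gt_atTop 1, hlog.eventually_gt_atTop 0, hx.eventually_gt_atTop 1] with n hn hl hx1
  simp only [Function.comp]
  have hn0 : (0 : ℝ) < n := by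
    have : 0 < n := by omega
    exact_mod_cast this
  have hs0 : 0 < √(n : ℝ) := Real.sqrt_pos.mpr hn0
  have hlx : Real.log (y * √(n : ℝ)) = Real.log y + Real.log n / 2 := by
    rw [Real.log_mul h0.ne' hs0.ne', Real.log_sqrt hn0.le]
  have hlx0 : 0 < Real.log (y * √(n : ℝ)) := Real.log_pos hx1
  have h5 : (Real.log y * (Real.log n)⁻¹ + 1 / 2)⁻¹ = Real.log n / Real.log (y * √(n : ℝ)) := by
    rw [hlx] at hlx0 ⊢
    rw [inv_eq_one_div, div_eq_div_iff _ hlx0.ne']
    · field_simp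
    · have : Real.log y * (Real.log n)⁻¹ + 1 / 2 = (Real.log y + Real.log n / 2) * (Real.log n)⁻¹ := by
        field_simp
      rw [this]
      positivity
  rw [h5]
  field_simp

lemma card_cls_tendsto (K k : ℕ) (hK : 1 ≤ K) (hk : k < K) :
    Tendsto (fun n : ℕ => ((cls K k n).card : ℝ) * (Real.log n / √n)) atTop (𝓝 (2 / K)) := by
  have h1 := pi_tendsto (((k + 1 : ℕ) : ℝ) / K) (by positivity)
  have h2 := pi_tendsto ((k : ℝ) / K) (by positivity)
  have h3 := h1.sub h2
  have hK0 : (0 : ℝ) < K := by exact_mod_cast hK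
  have h4 : 2 * (((k + 1 : ℕ) : ℝ) / K) - 2 * ((k : ℝ) / K) = 2 / K := by
    push_cast
    field_simp
    ring
  rw [h4] at h3
  apply h3.congr
  intro n
  rw [← card_cls K k n hK hk]
  push_cast
  ring

lemma log_div_sqrt : Tendsto (fun n : ℕ => Real.log (n : ℝ) / √(n : ℝ)) atTop (𝓝 0) := by
  have h1 := (isLittleO_log_rpow_atTop (show (0 : ℝ) < 1 / 2 by norm_num)).tendsto_div_nhds_zero
  have h2 := h1.comp tendsto_natCast_atTop_atTop (α := ℕ)
  apply h2.congr
  intro n
  simp only [Function.comp]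
  rw [Real.sqrt_eq_rpow]

lemma inv_sqrt_tendsto : Tendsto (fun n : ℕ => 1 / √(n : ℝ)) atTop (𝓝 0) := by
  have hsq : Tendsto (fun n : ℕ => √(n : ℝ)) atTop atTop :=
    Real.tendsto_sqrt_atTop.comp tendsto_natCast_atTop_atTop
  have h := tendsto_inv_atTop_zero.comp hsq
  apply h.congr
  intro n
  simp [Function.comp]

lemma inv_nat_tendsto : Tendsto (fun n : ℕ => 1 / (n : ℝ)) atTop (𝓝 0) := tendsto_one_div_atTop_nhds_zero_nat

/-- The upper function's limit. -/
lemma upper_tendsto (K C : ℕ) (hK : 1 ≤ K) :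
    Tendsto (fun n : ℕ => (∑ k ∈ range K, (((cls K k n).card : ℝ) *
      ((1 + 1 / K - (k / K) ^ 2) * n + 1 + √n) + C * n)) * (Real.log n / (n * √n))) atTop
      (𝓝 (∑ k ∈ range K, 2 / K * (1 + 1 / K - ((k : ℝ) / K) ^ 2))) := by
  have h1 : Tendsto (fun n : ℕ => ∑ k ∈ range K, (((cls K k n).card : ℝ) * (Real.log n / √n) *
      ((1 + 1 / K - (k / K) ^ 2) + 1 / n + 1 / √n) + C * (Real.log n / √n))) atTop
      (𝓝 (∑ k ∈ range K, (2 / K * ((1 + 1 / K - ((k : ℝ) / K) ^ 2) + 0 + 0) + C * 0))) := by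
    apply tendsto_finsetSum
    intro k hk
    rw [Finset.mem_range] at hk
    apply Tendsto.add
    · apply (card_cls_tendsto K k hK hk).mul
      apply Tendsto.add
      · exact tendsto_const_nhds.add inv_nat_tendsto
      · exact inv_sqrt_tendsto
    · exact log_div_sqrt.const_mul _
  simp only [add_zero, mul_zero] at h1
  apply h1.congr'
  filter_upwards [eventually_gt_atTop 0] with n hn
  have hn0 : (0 : ℝ) < n := by exact_mod_cast hn
  have hs0 : 0 < √(n : ℝ) := Real.sqrt_pos.mpr hn0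
  rw [Finset.sum_mul]
  apply Finset.sum_congr rfl
  intro k _
  have hss : √(n : ℝ) * √(n : ℝ) = n := Real.mul_self_sqrt hn0.le
  have hss2 : √(n : ℝ) ^ 2 = n := Real.sq_sqrt hn0.le
  field_simp
  linear_combination (-(Real.log (n : ℝ) * ((cls K k n).card : ℝ) * (K : ℝ) ^ 2)) * hss2

lemma lower_tendsto (K : ℕ) (hK : 1 ≤ K) :
    Tendsto (fun n : ℕ => (∑ k ∈ range K, (((cls K k n).card : ℝ) *
      ((1 - (((k + 1 : ℕ) : ℝ) / K) ^ 2) * n)) - n - √n) * (Real.log n / (n * √n))) atTop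
      (𝓝 (∑ k ∈ range K, 2 / K * (1 - (((k + 1 : ℕ) : ℝ) / K) ^ 2))) := by
  have h1 : Tendsto (fun n : ℕ => (∑ k ∈ range K, (((cls K k n).card : ℝ) * (Real.log n / √n) *
      ((1 - (((k + 1 : ℕ) : ℝ) / K) ^ 2)))) - (Real.log n / √n) - (Real.log n / √n) * (1 / √n)) atTop
      (𝓝 ((∑ k ∈ range K, (2 / K * (1 - (((k + 1 : ℕ) : ℝ) / K) ^ 2))) - 0 - 0 * 0)) := by
    apply Tendsto.sub
    · apply Tendsto.sub
      · apply tendsto_finsetSum
        intro k hk
        rw [Finset.mem_range] at hk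
        exact (card_cls_tendsto K k hK hk).mul_const _
      · exact log_div_sqrt
    · exact log_div_sqrt.mul inv_sqrt_tendsto
  simp only [sub_zero, mul_zero] at h1
  apply h1.congr'
  filter_upwards [eventually_gt_atTop 0] with n hn
  have hn0 : (0 : ℝ) < n := by exact_mod_cast hn
  have hs0 : 0 < √(n : ℝ) := Real.sqrt_pos.mpr hn0
  have hss : √(n : ℝ) * √(n : ℝ) = n := Real.mul_self_sqrt hn0.le
  rw [sub_mul, sub_mul, Finset.sum_mul]
  congr 1
  · congr 1
    · apply Finset.sum_congr rfl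
      intro k _
      field_simp
    · field_simp
  · have hss2 : √(n : ℝ) ^ 2 = n := Real.sq_sqrt hn0.le
    field_simp
    rw [hss2]

lemma sum_sq (K : ℕ) : ∑ k ∈ range K, (k : ℝ) ^ 2 = K * (K - 1) * (2 * K - 1) / 6 := by
  induction K with
  | zero => simp
  | succ K ih =>
    rw [Finset.sum_range_succ, ih]
    push_cast
    ring

lemma sum_sq' (K : ℕ) : ∑ k ∈ range K, ((k + 1 : ℕ) : ℝ) ^ 2 = K * (K + 1) * (2 * K + 1) / 6 := by
  induction K with
  | zero => simp
  | succ K ih =>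
    rw [Finset.sum_range_succ, ih]
    push_cast
    ring

lemma upper_val (K : ℕ) (hK : 1 ≤ K) :
    ∑ k ∈ range K, 2 / (K : ℝ) * (1 + 1 / K - ((k : ℝ) / K) ^ 2) ≤ (4 : ℝ) / 3 + 3 / (K : ℝ) := by
  have hK0 : (0 : ℝ) < K := by exact_mod_cast hK
  have h1 : ∑ k ∈ range K, 2 / (K : ℝ) * (1 + 1 / K - ((k : ℝ) / K) ^ 2) =
      2 / K * (1 + 1 / K) * K - 2 / K * (1 / K ^ 2) * ∑ k ∈ range K, (k : ℝ) ^ 2 := by
    rw [Finset.mul_sum]
    have : 2 / (K : ℝ) * (1 + 1 / K) * K = ∑ k ∈ range K, 2 / (K : ℝ) * (1 + 1 / K) := by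
      rw [Finset.sum_const, Finset.card_range, nsmul_eq_mul]; ring
    rw [this, ← Finset.sum_sub_distrib]
    apply Finset.sum_congr rfl
    intro k _
    field_simp
  rw [h1, sum_sq]
  have h2 : 2 / (K : ℝ) * (1 + 1 / K) * K - 2 / K * (1 / K ^ 2) * (K * (K - 1) * (2 * K - 1) / 6) =
      4 / 3 + 3 / K - 1 / (3 * K ^ 2) := by
    field_simp
    ring
  rw [h2]
  have : 0 < 1 / (3 * (K : ℝ) ^ 2) := by positivity
  linarith

lemma lower_val (K : ℕ) (hK : 1 ≤ K) :
    (4 : ℝ) / 3 - 2 / (K : ℝ) ≤ ∑ k ∈ range K, 2 / (K : ℝ) * (1 - (((k + 1 : ℕ) : ℝ) / K) ^ 2) := by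
  have hK0 : (0 : ℝ) < K := by exact_mod_cast hK
  have hK1 : (1 : ℝ) ≤ K := by exact_mod_cast hK
  have h1 : ∑ k ∈ range K, 2 / (K : ℝ) * (1 - (((k + 1 : ℕ) : ℝ) / K) ^ 2) =
      2 / K * K - 2 / K * (1 / K ^ 2) * ∑ k ∈ range K, ((k + 1 : ℕ) : ℝ) ^ 2 := by
    rw [Finset.mul_sum]
    have : 2 / (K : ℝ) * K = ∑ k ∈ range K, 2 / (K : ℝ) := by
      rw [Finset.sum_const, Finset.card_range, nsmul_eq_mul]; ring
    rw [this, ← Finset.sum_sub_distrib]
    apply Finset.sum_congr rfl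
    intro k _
    field_simp
  rw [h1, sum_sq']
  have h2 : 2 / (K : ℝ) * K - 2 / K * (1 / K ^ 2) * (K * (K + 1) * (2 * K + 1) / 6) =
      4 / 3 - 2 / K + (3 * K - 1) / (3 * K ^ 2) := by
    field_simp
    ring
  rw [h2]
  have : 0 ≤ (3 * (K : ℝ) - 1) / (3 * K ^ 2) := by
    apply div_nonneg
    · linarith
    · positivity
  linarith

end asym

section final

lemma packs_of_fitsIn {n L : ℕ} {D : Finset ℕ} (h : FitsIn n D L) : Packs n D L := by
  obtain ⟨s, h1, h2⟩ := h
  refine ⟨s, ?_, h2⟩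
  intro d hd a ha
  have h3 := prog_bounds ha
  have h4 := h1 d hd
  rw [Finset.mem_Icc]
  constructor <;> linarith [h3.1, h3.2, h4.1, h4.2]

lemma mPack_mem (n : ℕ) (D : Finset ℕ) : Packs n D (mPack n D) :=
  Nat.sInf_mem (s := {m : ℕ | Packs n D m}) ⟨D.card * n, packs_of_fitsIn (fitsIn_card n D)⟩

lemma mPack_le {n L : ℕ} {D : Finset ℕ} (h : Packs n D L) : mPack n D ≤ L :=
  Nat.sInf_le (s := {m : ℕ | Packs n D m}) h

/-- the step length for class `k` -/
def Lam (K k n : ℕ) : ℕ := (K ^ 2 + K - k ^ 2) * n / K ^ 2 + 1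

/-- the length used for class `k` -/
def Len (K C k n : ℕ) : ℕ := (cls K k n).card * (Lam K k n + Nat.sqrt n) + C * n

lemma Lam_ge (K k n : ℕ) (hK : 1 ≤ K) (hk : k < K) :
    (K ^ 2 + K) * n ≤ K ^ 2 * Lam K k n + k ^ 2 * n := by
  have hk2 : k ^ 2 ≤ K ^ 2 := Nat.pow_le_pow_left hk.le 2
  have h1 : (K ^ 2 + K - k ^ 2) * n ≤ K ^ 2 * Lam K k n := by
    rw [Lam]
    exact (Nat.lt_mul_div_succ _ (by positivity)).le
  have h2 : (K ^ 2 + K) * n = (K ^ 2 + K - k ^ 2) * n + k ^ 2 * n := by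
    rw [← add_mul]
    congr 1
    omega
  omega

lemma Lam_le (K k n : ℕ) (hK : 1 ≤ K) (hk : k < K) :
    (Lam K k n : ℝ) ≤ (1 + 1 / K - ((k : ℝ) / K) ^ 2) * n + 1 := by
  have hk2 : k ^ 2 ≤ K ^ 2 + K := (Nat.pow_le_pow_left hk.le 2).trans (by omega)
  have hK0 : (0 : ℝ) < K := by exact_mod_cast hK
  rw [Lam]
  push_cast
  have h1 : (((K ^ 2 + K - k ^ 2) * n / K ^ 2 : ℕ) : ℝ) ≤ (((K ^ 2 + K - k ^ 2) * n : ℕ) : ℝ) / ((K ^ 2 : ℕ) : ℝ) :=
    Nat.cast_div_le
  have h2 : (((K ^ 2 + K - k ^ 2) * n : ℕ) : ℝ) / ((K ^ 2 : ℕ) : ℝ) = (1 + 1 / K - ((k : ℝ) / K) ^ 2) * n := by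
    push_cast [Nat.cast_sub hk2]
    field_simp
  linarith

lemma fits_class (K : ℕ) (hK : 1 ≤ K) : ∃ C : ℕ, ∀ k < K, ∀ᶠ n : ℕ in atTop,
    FitsIn n (cls K k n) (Len K C k n) := by
  have hK0 : (0 : ℝ) < K := by exact_mod_cast hK
  have hK1 : (1 : ℝ) ≤ K := by exact_mod_cast hK
  obtain ⟨m, hm⟩ := exists_degree K (1 / (4 * K)) (by positivity) (by
    rw [div_le_div_iff₀ (by positivity) (by norm_num)]
    linarith)
  refine ⟨(2 * m + 1) ^ K * K + 1, fun k hk => ?_⟩
  rcases Nat.eq_zero_or_pos k with h0 | h0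
  · subst h0
    filter_upwards with n
    apply (fitsIn_card n (cls K 0 n)).mono (le_refl _)
    rw [Len]
    have h1 : n ≤ Lam K 0 n + Nat.sqrt n := by
      have h2 := Lam_ge K 0 n hK hk
      have h3 : K ^ 2 * n ≤ K ^ 2 * Lam K 0 n := by nlinarith
      have h4 := Nat.le_of_mul_le_mul_left h3 (by positivity)
      omega
    calc (cls K 0 n).card * n ≤ (cls K 0 n).card * (Lam K 0 n + Nat.sqrt n) := Nat.mul_le_mul_left _ h1
      _ ≤ _ := Nat.le_add_right _ _
  · filter_upwards [eventually_ge_atTop (K ^ 2 * m ^ 2), eventually_ge_atTop (K ^ 2 * (4 * K) ^ 2),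
      eventually_ge_atTop ((K ^ (K + 1) * (K * m) + 1) * (K ^ (K + 1) * (K * m) + 1))] with n hn1 hn2 hn3
    have hbig : ∀ p ∈ cls K k n, n < K ^ 2 * p ^ 2 := by
      intro p hp
      rw [cls, Finset.mem_filter] at hp
      have : 1 * n ≤ k ^ 2 * n := Nat.mul_le_mul_right n (Nat.one_le_pow _ _ h0)
      omega
    have hcd : ClassData n K k m (Nat.sqrt n) (Lam K k n) (cls K k n) := by
      refine ⟨hK, hk, hm, ?_, ?_, ?_, ?_, ?_, ?_, ?_, ?_, Lam_ge K k n hK hk⟩
      · intro p hp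
        rw [cls, Finset.mem_filter] at hp
        exact (mem_P.mp hp.1).1
      · intro p hp
        have h1 := hbig p hp
        have h2 : K ^ 2 * m ^ 2 < K ^ 2 * p ^ 2 := by omega
        have h3 := Nat.lt_of_mul_lt_mul_left h2
        exact lt_of_pow_lt_pow_left₀ 2 (by omega) h3
      · intro p hp
        have h1 := hbig p hp
        have h2 : K ^ 2 * (4 * K) ^ 2 < K ^ 2 * p ^ 2 := by omega
        have h3 := Nat.lt_of_mul_lt_mul_left h2
        exact (lt_of_pow_lt_pow_left₀ 2 (by omega) h3).le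
      · intro p hp
        rw [cls, Finset.mem_filter] at hp
        exact Nat.le_sqrt.mpr (mem_P.mp hp.1).2
      · intro p hp
        rw [cls, Finset.mem_filter] at hp
        exact (mem_P.mp hp.1).2
      · intro p hp
        have h1 := hbig p hp
        have h2 : (Nat.sqrt n) ^ 2 < (K * p) ^ 2 := by
          rw [mul_pow]
          have := Nat.sqrt_le' n
          omega
        exact (lt_of_pow_lt_pow_left₀ 2 (by omega) h2).le
      · intro p hp
        rw [cls, Finset.mem_filter] at hp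
        exact hp.2.1
      · have := Nat.le_sqrt.mpr hn3
        omega
    exact class_fits hcd

lemma fits_all (K C n : ℕ) (h : ∀ k < K, FitsIn n (cls K k n) (Len K C k n)) :
    FitsIn n ((range K).biUnion (fun k => cls K k n)) (∑ k ∈ range K, Len K C k n) := by
  classical
  have key : ∀ K' ≤ K, FitsIn n ((range K').biUnion (fun k => cls K k n)) (∑ k ∈ range K', Len K C k n) := by
    intro K' 
    induction K' with
    | zero =>
      intro _
      refine ⟨fun _ => 0, by simp, by simp⟩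
    | succ K' ih =>
      intro hK'
      rw [Finset.sum_range_succ, Finset.range_add_one, Finset.biUnion_insert, Finset.union_comm]
      exact (ih (by omega)).union (h K' (by omega))
  exact key K (le_refl K)

lemma upper_ev (K : ℕ) (hK : 1 ≤ K) : ∃ C : ℕ, ∀ᶠ n : ℕ in atTop,
    (mPack n (primesUpToSqrt n) : ℝ) ≤ ∑ k ∈ range K, (((cls K k n).card : ℝ) *
      ((1 + 1 / K - (k / K) ^ 2) * n + 1 + √n) + C * n) := by
  obtain ⟨C, hC⟩ := fits_class K hK
  refine ⟨C, ?_⟩
  have h1 : ∀ᶠ n : ℕ in atTop, ∀ k ∈ range K, FitsIn n (cls K k n) (Len K C k n) := by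
    rw [Filter.eventually_all_finset]
    intro k hk
    exact hC k (Finset.mem_range.mp hk)
  filter_upwards [h1] with n hn
  have h2 := fits_all K C n (fun k hk => hn k (Finset.mem_range.mpr hk))
  rw [← cls_cover K n hK] at h2
  have h3 := mPack_le (packs_of_fitsIn h2)
  have h4 : (mPack n (primesUpToSqrt n) : ℝ) ≤ ((∑ k ∈ range K, Len K C k n : ℕ) : ℝ) := by exact_mod_cast h3
  refine h4.trans ?_
  rw [Nat.cast_sum]
  apply Finset.sum_le_sum
  intro k hk
  rw [Finset.mem_range] at hk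
  rw [Len]
  push_cast
  have h5 := Lam_le K k n hK hk
  have h6 : (Nat.sqrt n : ℝ) ≤ √n := Real.nat_sqrt_le_real_sqrt
  have h7 : (0 : ℝ) ≤ (cls K k n).card := by positivity
  have h8 : ((cls K k n).card : ℝ) * (Lam K k n + Nat.sqrt n) ≤ ((cls K k n).card : ℝ) *
      ((1 + 1 / K - (k / K) ^ 2) * n + 1 + √n) := by
    apply mul_le_mul_of_nonneg_left _ h7
    linarith
  linarith

lemma lower_ev (K : ℕ) (hK : 1 ≤ K) (n : ℕ) :
    (∑ k ∈ range K, (((cls K k n).card : ℝ) *
      ((1 - (((k + 1 : ℕ) : ℝ) / K) ^ 2) * n)) - n - √n) ≤ (mPack n (primesUpToSqrt n) : ℝ) := by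
  classical
  have hK0 : (0 : ℝ) < K := by exact_mod_cast hK
  have h1 := lower_bound n (Nat.sqrt n) (primesUpToSqrt n) (fun p hp => (mem_P.mp hp).1)
    (fun p hp => (mem_P.mp hp).2) (fun p hp => Nat.le_sqrt.mpr (mem_P.mp hp).2) _
    (mPack_mem n (primesUpToSqrt n))
  have h2 : ((∑ p ∈ primesUpToSqrt n, ((n : ℤ) - p ^ 2) : ℤ) : ℝ) ≤
      ((mPack n (primesUpToSqrt n) + n + Nat.sqrt n : ℤ) : ℝ) := by exact_mod_cast h1
  push_cast at h2
  have h6 : (Nat.sqrt n : ℝ) ≤ √n := Real.nat_sqrt_le_real_sqrt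
  have h3 : ∑ k ∈ range K, (((cls K k n).card : ℝ) *
      ((1 - (((k + 1 : ℕ) : ℝ) / K) ^ 2) * n)) ≤ ∑ p ∈ primesUpToSqrt n, ((n : ℝ) - p ^ 2) := by
    conv_rhs => rw [cls_cover K n hK]
    rw [Finset.sum_biUnion (cls_disj K n)]
    apply Finset.sum_le_sum
    intro k hk
    rw [← nsmul_eq_mul]
    apply Finset.card_nsmul_le_sum
    intro p hp
    rw [cls, Finset.mem_filter] at hp
    have h4 : ((K ^ 2 * p ^ 2 : ℕ) : ℝ) ≤ (((k + 1) ^ 2 * n : ℕ) : ℝ) := by exact_mod_cast hp.2.2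
    push_cast at h4
    have h5 : (p : ℝ) ^ 2 ≤ (((k + 1 : ℕ) : ℝ) / K) ^ 2 * n := by
      rw [div_pow, div_mul_eq_mul_div, le_div_iff₀ (by positivity)]
      push_cast
      linarith
    linarith
  linarith

/-- the normalised quantity tends to `4/3` -/
lemma main_tendsto : Tendsto (fun n : ℕ => (mPack n (primesUpToSqrt n) : ℝ) *
    (Real.log n / (n * √n))) atTop (𝓝 (4 / 3)) := by
  have hnn : ∀ n : ℕ, 0 ≤ Real.log n / (n * √(n : ℝ)) := fun n =>
    div_nonneg (Real.log_natCast_nonneg n) (by positivity)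
  rw [tendsto_order]
  constructor
  · intro a ha
    obtain ⟨K, hK⟩ := exists_nat_gt (max 1 (2 / (4 / 3 - a)))
    have hK1 : 1 ≤ K := by
      have := (le_max_left _ _).trans_lt hK
      have : (1 : ℝ) < K := this
      exact_mod_cast this.le
    have hK0 : (0 : ℝ) < K := by exact_mod_cast hK1
    have hK2 : 2 / (K : ℝ) < 4 / 3 - a := by
      have h1 := (le_max_right _ _).trans_lt hK
      rw [div_lt_iff₀ (by linarith)] at h1
      rw [div_lt_iff₀ hK0]
      linarith
    have h1 := lower_tendsto K hK1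
    have h2 := lower_val K hK1
    have h3 := h1.eventually (lt_mem_nhds (show a < _ by linarith))
    filter_upwards [h3] with n hn
    refine lt_of_lt_of_le hn ?_
    exact mul_le_mul_of_nonneg_right (lower_ev K hK1 n) (hnn n)
  · intro b hb
    obtain ⟨K, hK⟩ := exists_nat_gt (max 1 (3 / (b - 4 / 3)))
    have hK1 : 1 ≤ K := by
      have := (le_max_left _ _).trans_lt hK
      have : (1 : ℝ) < K := this
      exact_mod_cast this.le
    have hK0 : (0 : ℝ) < K := by exact_mod_cast hK1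
    have hK2 : 3 / (K : ℝ) < b - 4 / 3 := by
      have h1 := (le_max_right _ _).trans_lt hK
      rw [div_lt_iff₀ (by linarith)] at h1
      rw [div_lt_iff₀ hK0]
      linarith
    obtain ⟨C, hC⟩ := upper_ev K hK1
    have h1 := upper_tendsto K C hK1
    have h2 := upper_val K hK1
    have h3 := h1.eventually (gt_mem_nhds (show _ < b by linarith))
    filter_upwards [h3, hC] with n hn hn2
    refine lt_of_le_of_lt ?_ hn
    exact mul_le_mul_of_nonneg_right hn2 (hnn n)

end final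

/-- **Main theorem.** `m_{P(√n)}(n)` (the least `m` such that the progressions `A_p`, `p ≤ √n` prime, pack
into `[m]`, which exists for every `n`) is asymptotic to `(4/3) n^{3/2} / ln n`. -/
theorem result :
    (∀ n : ℕ, IsLeast {m : ℕ | Packs n (primesUpToSqrt n) m} (mPack n (primesUpToSqrt n))) ∧
    Tendsto (fun n : ℕ => (mPack n (primesUpToSqrt n) : ℝ) /
      (4 / 3 * ((n : ℝ) ^ (3 / 2 : ℝ) / Real.log n))) atTop (𝓝 1) := by
  refine ⟨fun n => ⟨mPack_mem n _, fun m hm => mPack_le hm⟩, ?_⟩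
  have h1 := main_tendsto.const_mul (3 / 4)
  have h2 : (3 / 4 : ℝ) * (4 / 3) = 1 := by norm_num
  rw [h2] at h1
  apply h1.congr'
  filter_upwards [eventually_gt_atTop 1] with n hn
  have hn0 : (0 : ℝ) < n := by
    have : 0 < n := by omega
    exact_mod_cast this
  have hl : 0 < Real.log n := Real.log_pos (by exact_mod_cast hn)
  have hs0 : 0 < √(n : ℝ) := Real.sqrt_pos.mpr hn0
  have h3 : (n : ℝ) ^ (3 / 2 : ℝ) = n * √n := by
    rw [Real.sqrt_eq_rpow, show (3 / 2 : ℝ) = 1 + 1 / 2 by norm_num, Real.rpow_add hn0, Real.rpow_one]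
  rw [h3]
  field_simp

end Pool.H17.MV.PrimeProgressions
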